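import Pool.Agent.Lib.MP_b66790_nt.CY.Lift24

/-!
# Compatibility of the lift with filling in punctures
-/

namespace MPb66790.CY24

open Function Equiv MPb66790

section loop

variable {n : ℕ}

/-- The product of the loops around `ζ, ..., ζ ^ m`. -/
noncomputable def cP (n : ℕ) : ℕ → FHat (n + 2)
  | 0 => 1
  | m + 1 => cP n m * gy ((m + 1 : ℕ) : ZMod (n + 1))

/-- The loop around `∞` (inverse). -/
noncomputable def cE (n : ℕ) : FHat (n + 2) := cP n n * g0 n * gy 0

theorem cov_cP (m : ℕ) (hm : m ≤ n) : covMap n (cP n m) = (X * Y) ^ m * (X ^ m)⁻¹ := by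
  induction m with
  | zero => simp [cP]
  | succ m ih =>
    show covMap n (cP n m * gy ((m + 1 : ℕ) : ZMod (n + 1))) = _
    rw [map_mul, ih (by omega), cov_gy, ZMod.val_natCast, Nat.mod_eq_of_lt (by omega)]
    rw [pow_succ (X * Y) m, pow_succ X m]
    group

theorem cov_cE : covMap n (cE n) = (X * Y) ^ (n + 1) := by
  unfold cE
  rw [map_mul, map_mul, cov_cP n le_rfl, cov_g0, cov_gy, ZMod.val_zero, pow_succ (X * Y) n,
    pow_succ X n]
  group

theorem tau_cE : tau n (cE n) = (tau n (gy 0))⁻¹ * cE n * tau n (gy 0) := by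
  apply cov_inj
  rw [map_mul, map_mul, map_inv, cov_tau, cov_tau, cov_cE, cov_gy, ZMod.val_zero]
  have e : (X * Y)⁻¹ * (X * Y) ^ (n + 1) * (X * Y) = (X * Y) ^ (n + 1) := by
    calc (X * Y)⁻¹ * (X * Y) ^ (n + 1) * (X * Y) = (X * Y) ^ n * (X * Y) := by
          rw [pow_succ' (X * Y) n, inv_mul_cancel_left]
      _ = (X * Y) ^ (n + 1) := (pow_succ _ _).symm
  calc X * (X * Y) ^ (n + 1) * X⁻¹
      = X * ((X * Y)⁻¹ * (X * Y) ^ (n + 1) * (X * Y)) * X⁻¹ := by rw [e]
    _ = _ := by group

theorem taun_cE (r : ℕ) : ∃ s : FHat (n + 2), taun n r (cE n) = s * cE n * s⁻¹ := by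
  induction r with
  | zero => exact ⟨1, by rw [taun_zero]; group⟩
  | succ r ih =>
    obtain ⟨s, hs⟩ := ih
    refine ⟨(taun n r (tau n (gy 0)))⁻¹ * s, ?_⟩
    rw [taun_succ, tau_cE, map_mul, map_mul, map_inv, hs]
    group

variable {lam : ZHat} {f : FHat 2} {k : FHat (n + 2)} {Φ : FHat (n + 2) →ₜ* FHat (n + 2)}
  {mm : ZMod (n + 1) → ZHat}

/-- A lift preserves the relation at `∞`. -/
theorem Lift.inf (h : IsGT lam f) (L : Lift n lam f k Φ mm) (θ : FHat (n + 2) →ₜ* FHat 2)
    (hθ : θ (cE n) = 1) : θ (Φ (cE n)) = 1 := by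
  obtain ⟨u, hu⟩ := phi_Z h
  obtain ⟨r, -, ku, hku⟩ := exists_cov n u
  have h1 : phi lam f (X * Y) = u * pow (X * Y) lam * u⁻¹ := by
    have e : X * Y = Z⁻¹ := by
      unfold Z
      group
    rw [e, map_inv, hu, pow_inv']
    group
  have h2 : Φ (cE n) = taun n r (ku * pow (cE n) lam * ku⁻¹) := by
    apply cov_inj
    rw [L.hcov, cov_cE, map_pow, h1, cov_taun, map_mul, map_mul, map_inv, map_pow', cov_cE,
      pow_npow', hku]
    have e : ∀ x v : FHat 2, ∀ m : ℕ, (v * x * v⁻¹) ^ m = v * x ^ m * v⁻¹ := fun x v m => conj_pow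
    rw [e]
    group
  obtain ⟨s, hs⟩ := taun_cE (n := n) r
  rw [h2]
  simp only [map_mul, map_inv, map_pow', hs, hθ]
  have e : ∀ x : FHat 2, x * 1 * x⁻¹ = 1 := fun x => by group
  rw [e, one_pow']
  group

theorem prod_one {H : Type} [Group H] (θ : FHat (n + 2) →* H) {a : ZMod (n + 1)} (ha : a ≠ 0)
    (h : ∀ j : ZMod (n + 1), j ≠ 0 → j ≠ a → θ (gy j) = 1) (m : ℕ) (hm : m ≤ n) :
    θ (cP n m) = if a.val ≤ m then θ (gy a) else 1 := by
  have hv : a.val ≠ 0 := fun h => ha ((ZMod.val_eq_zero a).1 h)
  induction m with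
  | zero =>
    rw [if_neg (by omega)]
    exact map_one θ
  | succ m ih =>
    show θ (cP n m * gy ((m + 1 : ℕ) : ZMod (n + 1))) = _
    have hval : (((m + 1 : ℕ) : ZMod (n + 1))).val = m + 1 := by
      rw [ZMod.val_natCast, Nat.mod_eq_of_lt (by omega)]
    rw [map_mul, ih (by omega)]
    by_cases c : a.val = m + 1
    · have e : ((m + 1 : ℕ) : ZMod (n + 1)) = a := ZMod.val_injective _ (by rw [hval, c])
      rw [if_neg (by omega), if_pos (by omega), e, one_mul]
    · have e : θ (gy ((m + 1 : ℕ) : ZMod (n + 1))) = 1 := by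
        refine h _ (fun e => ?_) (fun e => ?_)
        · rw [e, ZMod.val_zero] at hval
          omega
        · rw [e] at hval
          exact c hval
      rw [e, mul_one]
      by_cases c2 : a.val ≤ m
      · rw [if_pos c2, if_pos (by omega)]
      · rw [if_neg c2, if_neg (by omega)]

theorem prod_two {H : Type} [Group H] (θ : FHat (n + 2) →* H) {a b : ZMod (n + 1)} (ha : a ≠ 0)
    (hab : a.val < b.val)
    (h : ∀ j : ZMod (n + 1), j ≠ 0 → j ≠ a → j ≠ b → θ (gy j) = 1) (m : ℕ) (hm : m ≤ n) :
    θ (cP n m) = (if a.val ≤ m then θ (gy a) else 1) * (if b.val ≤ m then θ (gy b) else 1) := by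
  have hv : a.val ≠ 0 := fun h => ha ((ZMod.val_eq_zero a).1 h)
  induction m with
  | zero =>
    rw [if_neg (by omega), if_neg (by omega), mul_one]
    exact map_one θ
  | succ m ih =>
    show θ (cP n m * gy ((m + 1 : ℕ) : ZMod (n + 1))) = _
    have hval : (((m + 1 : ℕ) : ZMod (n + 1))).val = m + 1 := by
      rw [ZMod.val_natCast, Nat.mod_eq_of_lt (by omega)]
    rw [map_mul, ih (by omega)]
    by_cases c : a.val = m + 1
    · have e : ((m + 1 : ℕ) : ZMod (n + 1)) = a := ZMod.val_injective _ (by rw [hval, c])
      have i1 : ¬ a.val ≤ m := by omega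
      have i2 : ¬ b.val ≤ m := by omega
      have i3 : a.val ≤ m + 1 := by omega
      have i4 : ¬ b.val ≤ m + 1 := by omega
      rw [if_neg i1, if_neg i2, if_pos i3, if_neg i4, e, one_mul, one_mul, mul_one]
    · by_cases d : b.val = m + 1
      · have e : ((m + 1 : ℕ) : ZMod (n + 1)) = b := ZMod.val_injective _ (by rw [hval, d])
        have i1 : a.val ≤ m := by omega
        have i2 : ¬ b.val ≤ m := by omega
        have i3 : a.val ≤ m + 1 := by omega
        have i4 : b.val ≤ m + 1 := by omega
        rw [if_pos i1, if_neg i2, if_pos i3, if_pos i4, e, mul_one]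
      · have e : θ (gy ((m + 1 : ℕ) : ZMod (n + 1))) = 1 := by
          refine h _ (fun e => ?_) (fun e => ?_) (fun e => ?_)
          · rw [e, ZMod.val_zero] at hval
            omega
          · rw [e] at hval
            exact c hval
          · rw [e] at hval
            exact d hval
        rw [e, mul_one]
        congr 1
        · by_cases c2 : a.val ≤ m
          · rw [if_pos c2, if_pos (by omega)]
          · rw [if_neg c2, if_neg (by omega)]
        · by_cases c2 : b.val ≤ m
          · rw [if_pos c2, if_pos (by omega)]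
          · rw [if_neg c2, if_neg (by omega)]

end loop

section unit

variable {n : ℕ} {lam : ZHat} {f : FHat 2}

theorem red_unit (h : IsGT lam f) {x : ZMod (n + 1)} (hx : red n lam * x = 0) : x = 0 := by
  obtain ⟨mu, hmu⟩ := h.unit
  have h1 : red n lam * red n mu = 1 := by rw [← red_powP, hmu, red_zgen]
  calc x = (red n mu * red n lam) * x := by rw [mul_comm (red n mu), h1, one_mul]
    _ = 0 := by rw [mul_assoc, hx, mul_zero]

theorem red_inj (h : IsGT lam f) {x y : ZMod (n + 1)} (hx : red n lam * x = red n lam * y) :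
    x = y := by
  have h1 : red n lam * (x - y) = 0 := by rw [mul_sub, hx, sub_self]
  exact sub_eq_zero.1 (red_unit h h1)

end unit

section compat

variable {n : ℕ} {lam : ZHat} {f : FHat 2} {k : FHat (n + 2)}
  {Φ : FHat (n + 2) →ₜ* FHat (n + 2)} {mm : ZMod (n + 1) → ZHat}

theorem cyc_g {g : FHat 2} {e : ZHat} : (pow Y e * f * g)⁻¹ * pow Y lam *
    (pow Y e * f * g) = g⁻¹ * (f⁻¹ * pow Y lam * f) * g := by
  have hc : Commute (pow Y e) (pow Y lam) := commute_pow (comm_pow_self Y e).symm lam
  calc (pow Y e * f * g)⁻¹ * pow Y lam * (pow Y e * f * g)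
      = g⁻¹ * (f⁻¹ * ((pow Y e)⁻¹ * (pow Y lam * pow Y e)) * f) * g := by group
    _ = g⁻¹ * (f⁻¹ * ((pow Y e)⁻¹ * (pow Y e * pow Y lam)) * f) * g := by rw [hc.eq]
    _ = _ := by group

/-- Compatibility for `two`. -/
theorem compat_two (h : IsGT lam f) (L : Lift n lam f k Φ mm) (l : ZMod (n + 1)) :
    ∃ g : FHat 2, ∀ w, g * ev (fillTwo n (red n lam * l)) (Φ w) * g⁻¹ =
      phi lam f (ev (fillTwo n l) w) := by
  obtain ⟨e, e', hK⟩ := firstP h L.hk (red n lam * l)
  set θ : FHat (n + 2) →ₜ* FHat 2 := ev (fillTwo n (red n lam * l)) with hθ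
  set ψ : FHat (n + 2) →ₜ* FHat 2 := ev (fillTwo n l) with hψ
  have θ0 : θ (g0 n) = X := ev_g0 _ _
  have θy : ∀ j, θ (gy j) = if j = 0 then Y else if j = red n lam * l then Z else 1 := ev_gy _ _
  have ψ0 : ψ (g0 n) = X := ev_g0 _ _
  have ψy : ∀ j, ψ (gy j) = if j = 0 then Y else if j = l then Z else 1 := ev_gy _ _
  have c0 : pow X e' * θ (Φ (g0 n)) * (pow X e')⁻¹ = pow X lam := by
    have hc : Commute (pow X e') (pow X lam) := commute_pow (comm_pow_self X e').symm lam
    rw [L.h0, map_pow', θ0, hc.eq, mul_inv_cancel_right]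
  have c1 : pow X e' * θ (Φ (gy 0)) * (pow X e')⁻¹ = f⁻¹ * pow Y lam * f := by
    rw [L.hy0, map_mul, map_mul, map_inv, map_pow', θy, if_pos rfl, hK,
      cyc_g (g := pow X e') (e := e)]
    group
  have c2 : ∀ j : ZMod (n + 1), j ≠ 0 → j ≠ l → θ (Φ (gy j)) = 1 := by
    intro j hj hjl
    obtain ⟨u, hu⟩ := L.fill hj θ
    rw [hu, taun_gy0, θy, if_neg (fun e => hj (red_unit h e)), if_neg (fun e => hjl (red_inj h e)),
      one_pow']
    group
  refine ⟨pow X e', fun w => ?_⟩
  refine gen_ext (φ := (MulAut.conj (pow X e')).toMonoidHom.comp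
      (θ.toMonoidHom.comp Φ.toMonoidHom))
    (ψ := (phi lam f).toMonoidHom.comp ψ.toMonoidHom) ?_
    ((phi lam f).continuous_toFun.comp ψ.continuous_toFun) ?_ (fun j => ?_) w
  · exact (continuous_const.mul (θ.continuous_toFun.comp Φ.continuous_toFun)).mul continuous_const
  · show pow X e' * θ (Φ (g0 n)) * (pow X e')⁻¹ = phi lam f (ψ (g0 n))
    rw [ψ0, c0, phi_X]
  · show pow X e' * θ (Φ (gy j)) * (pow X e')⁻¹ = phi lam f (ψ (gy j))
    rw [ψy]
    by_cases hj : j = 0
    · subst hj
      rw [if_pos rfl, c1, phi_Y]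
    · rw [if_neg hj]
      by_cases hjl : j = l
      · subst hjl
        rw [if_pos rfl]
        have hl' : red n lam * j ≠ 0 := fun e => hj (red_unit h e)
        have t1 : θ (cE n) = 1 := by
          unfold cE
          have hv : (red n lam * j).val ≤ n := by
            have := ZMod.val_lt (red n lam * j)
            omega
          rw [map_mul, map_mul, θ0, θy, if_pos rfl]
          have t2 : θ (cP n n) = Z := by
            have := prod_one (θ := θ.toMonoidHom) hl' (fun i h1 h2 => by
              show θ (gy i) = 1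
              rw [θy, if_neg h1, if_neg h2]) n le_rfl
            rw [if_pos hv] at this
            have t3 : θ (gy (red n lam * j)) = Z := by
              rw [θy, if_neg hl', if_pos rfl]
            exact this.trans t3
          rw [t2]
          unfold Z
          group
        have t4 := L.inf h θ t1
        have t5 : θ (Φ (cP n n)) = θ (Φ (gy j)) := by
          have := prod_one (θ := θ.toMonoidHom.comp Φ.toMonoidHom) hj (fun i h1 h2 =>
            c2 i h1 h2) n le_rfl
          rw [if_pos (by have := ZMod.val_lt j; omega)] at this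
          exact this
        unfold cE at t4
        rw [map_mul, map_mul, map_mul, map_mul, t5] at t4
        have t6 : θ (Φ (gy j)) = (θ (Φ (g0 n)) * θ (Φ (gy 0)))⁻¹ := by
          rw [mul_assoc] at t4
          exact eq_inv_of_mul_eq_one_left t4
        rw [t6]
        have t7 : phi lam f Z = (pow X lam * (f⁻¹ * pow Y lam * f))⁻¹ := by
          unfold Z
          rw [map_inv, map_mul, phi_X, phi_Y]
        rw [t7, ← c0, ← c1]
        group
      · rw [if_neg hjl, c2 j hj hjl, map_one]
        group

/-- Compatibility for `three`. -/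
theorem compat_three (h : IsGT lam f) (L : Lift n lam f k Φ mm) {i l : ZMod (n + 1)}
    (h0 : i ≠ 0) (hil : i ≠ l) :
    ∃ g : FHat 2, ∀ w, g * ev (fillThree n (red n lam * i) (red n lam * l)) (Φ w) * g⁻¹ =
      phi lam f (ev (fillThree n i l) w) := by
  have h0' : red n lam * i ≠ 0 := fun e => h0 (red_unit h e)
  have hil' : red n lam * i ≠ red n lam * l := fun e => hil (red_inj h e)
  obtain ⟨e, e', hK⟩ := secondP h L.hk h0' hil'
  set i' := red n lam * i with hi'
  set l' := red n lam * l with hl'
  set θ : FHat (n + 2) →ₜ* FHat 2 := ev (fillThree n i' l') with hθ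
  set ψ : FHat (n + 2) →ₜ* FHat 2 := ev (fillThree n i l) with hψ
  have θ0 : θ (g0 n) = 1 := ev_g0 _ _
  have θy : ∀ j, θ (gy j) = w3P n i' l' j := ev_gy _ _
  have ψ0 : ψ (g0 n) = 1 := ev_g0 _ _
  have ψy : ∀ j, ψ (gy j) = w3P n i l j := ev_gy _ _
  have hK1 : ev (mk 1 (fun j => w3P n i' l' (j + i'))) k = θ (taun n i'.val k) := by
    have := ev_taun (w3P n i' l') i'.val k
    rw [ZMod.natCast_zmod_val] at this
    exact this.symm
  rw [hK1] at hK
  set K0 := θ k with hK0
  set K1 := θ (taun n i'.val k) with hK1'
  set g := pow X e' * K0 with hg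
  have c1 : g * θ (Φ (gy 0)) * g⁻¹ = pow X lam := by
    have t1 : θ (gy 0) = X := by
      rw [θy]
      exact if_pos rfl
    have hc : Commute (pow X e') (pow X lam) := commute_pow (comm_pow_self X e').symm lam
    rw [L.hy0, map_mul, map_mul, map_inv, map_pow', t1, hg]
    calc pow X e' * K0 * (K0⁻¹ * pow X lam * K0) * (pow X e' * K0)⁻¹
        = pow X e' * pow X lam * (pow X e')⁻¹ := by group
      _ = pow X lam := by rw [hc.eq, mul_inv_cancel_right]
  have ci : g * θ (Φ (gy i)) * g⁻¹ = f⁻¹ * pow Y lam * f := by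
    have t1 : θ (taun n i'.val (gy 0)) = Y := by
      rw [taun_gy0, θy]
      unfold w3P
      rw [if_neg h0', if_pos rfl]
    have t2 : θ (Φ (gy i)) = K1⁻¹ * pow Y lam * K1 := by
      rw [L.hy i h0, ← hi']
      simp only [map_mul, map_inv, map_pow', θ0, one_pow', t1]
      rw [← hK1']
      group
    rw [t2, hg]
    have t3 : K1 = (pow Y e * f * pow X e') * K0 := by
      rw [← hK]
      group
    rw [t3]
    calc pow X e' * K0 * (((pow Y e * f * pow X e') * K0)⁻¹ * pow Y lam *
          ((pow Y e * f * pow X e') * K0)) * (pow X e' * K0)⁻¹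
        = pow X e' * ((pow Y e * f * pow X e')⁻¹ * pow Y lam *
          (pow Y e * f * pow X e')) * (pow X e')⁻¹ := by group
      _ = pow X e' * ((pow X e')⁻¹ * (f⁻¹ * pow Y lam * f) * pow X e') * (pow X e')⁻¹ := by
          rw [cyc_g (g := pow X e') (e := e)]
      _ = _ := by group
  have cg : θ (Φ (g0 n)) = 1 := by
    rw [L.h0, map_pow', θ0, one_pow']
  have c2 : ∀ j : ZMod (n + 1), j ≠ 0 → j ≠ i → j ≠ l → θ (Φ (gy j)) = 1 := by
    intro j hj hji hjl
    obtain ⟨u, hu⟩ := L.fill hj θ
    have t1 : θ (gy (red n lam * j)) = 1 := by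
      rw [θy]
      unfold w3P
      rw [if_neg (fun e => hj (red_unit h e)), if_neg (fun e => hji (red_inj h e)),
        if_neg (fun e => hjl (red_inj h e))]
    rw [hu, taun_gy0, t1, one_pow']
    group
  refine ⟨g, fun w => ?_⟩
  refine gen_ext (φ := (MulAut.conj g).toMonoidHom.comp (θ.toMonoidHom.comp Φ.toMonoidHom))
    (ψ := (phi lam f).toMonoidHom.comp ψ.toMonoidHom) ?_
    ((phi lam f).continuous_toFun.comp ψ.continuous_toFun) ?_ (fun j => ?_) w
  · exact (continuous_const.mul (θ.continuous_toFun.comp Φ.continuous_toFun)).mul continuous_const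
  · show g * θ (Φ (g0 n)) * g⁻¹ = phi lam f (ψ (g0 n))
    rw [ψ0, cg, map_one]
    group
  · show g * θ (Φ (gy j)) * g⁻¹ = phi lam f (ψ (gy j))
    rw [ψy]
    unfold w3P
    by_cases hj : j = 0
    · subst hj
      rw [if_pos rfl, c1, phi_X]
    · rw [if_neg hj]
      by_cases hji : j = i
      · subst hji
        rw [if_pos rfl, ci, phi_Y]
      · rw [if_neg hji]
        by_cases hjl : j = l
        · subst hjl
          rw [if_pos rfl]
          have hl0' : l' ≠ 0 := fun e => hj (red_unit h e)
          have t1 : θ (cE n) = 1 := by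
            unfold cE
            have t2 : θ (gy 0) = X := by
              rw [θy]
              exact if_pos rfl
            have t3 : θ (gy i') = Y := by
              rw [θy]
              unfold w3P
              rw [if_neg h0', if_pos rfl]
            have t4 : θ (gy l') = if i'.val < l'.val then Z else (Y * X)⁻¹ := by
              rw [θy]
              unfold w3P
              rw [if_neg hl0', if_neg (Ne.symm hil'), if_pos rfl]
            have hvi : i'.val ≤ n := by
              have := ZMod.val_lt i'
              omega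
            have hvl : l'.val ≤ n := by
              have := ZMod.val_lt l'
              omega
            rw [map_mul, map_mul, θ0, t2]
            rcases lt_trichotomy i'.val l'.val with hlt | heq | hgt
            · have := prod_two (θ := θ.toMonoidHom) h0' hlt (fun m h1 h2 h3 => by
                show θ (gy m) = 1
                rw [θy]
                unfold w3P
                rw [if_neg h1, if_neg h2, if_neg h3]) n le_rfl
              rw [if_pos hvi, if_pos hvl] at this
              have t5 : θ (cP n n) = Y * Z := by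
                refine this.trans ?_
                show θ (gy i') * θ (gy l') = _
                rw [t3, t4, if_pos hlt]
              rw [t5]
              unfold Z
              group
            · exact absurd (ZMod.val_injective _ heq) hil'
            · have := prod_two (θ := θ.toMonoidHom) hl0' hgt (fun m h1 h2 h3 => by
                show θ (gy m) = 1
                rw [θy]
                unfold w3P
                rw [if_neg h1, if_neg h3, if_neg h2]) n le_rfl
              rw [if_pos hvi, if_pos hvl] at this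
              have t5 : θ (cP n n) = (Y * X)⁻¹ * Y := by
                refine this.trans ?_
                show θ (gy l') * θ (gy i') = _
                rw [t3, t4, if_neg (by omega)]
              rw [t5]
              group
          have t4 := L.inf h θ t1
          unfold cE at t4
          rw [map_mul, map_mul, map_mul, map_mul, cg, mul_one] at t4
          have hvi : i.val ≤ n := by
            have := ZMod.val_lt i
            omega
          have hvl : j.val ≤ n := by
            have := ZMod.val_lt j
            omega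
          rcases lt_trichotomy i.val j.val with hlt | heq | hgt
          · rw [if_pos hlt]
            have t5 : θ (Φ (cP n n)) = θ (Φ (gy i)) * θ (Φ (gy j)) := by
              have := prod_two (θ := θ.toMonoidHom.comp Φ.toMonoidHom) h0 hlt
                (fun m h1 h2 h3 => c2 m h1 h2 h3) n le_rfl
              rw [if_pos hvi, if_pos hvl] at this
              exact this
            rw [t5] at t4
            have t6 : θ (Φ (gy j)) = (θ (Φ (gy 0)) * θ (Φ (gy i)))⁻¹ := by
              have t7 : θ (Φ (gy j)) * (θ (Φ (gy 0)) * θ (Φ (gy i))) = 1 := by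
                calc θ (Φ (gy j)) * (θ (Φ (gy 0)) * θ (Φ (gy i)))
                    = (θ (Φ (gy i)))⁻¹ * (θ (Φ (gy i)) * θ (Φ (gy j)) * θ (Φ (gy 0))) *
                      θ (Φ (gy i)) := by group
                  _ = 1 := by
                    rw [t4]
                    group
              exact eq_inv_of_mul_eq_one_left t7
            rw [t6]
            have t7 : phi lam f Z = (pow X lam * (f⁻¹ * pow Y lam * f))⁻¹ := by
              unfold Z
              rw [map_inv, map_mul, phi_X, phi_Y]
            rw [t7, ← c1, ← ci]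
            group
          · exact absurd (ZMod.val_injective _ heq) (Ne.symm hji)
          · rw [if_neg (by omega)]
            have t5 : θ (Φ (cP n n)) = θ (Φ (gy j)) * θ (Φ (gy i)) := by
              have := prod_two (θ := θ.toMonoidHom.comp Φ.toMonoidHom) hj hgt
                (fun m h1 h2 h3 => c2 m h1 h3 h2) n le_rfl
              rw [if_pos hvi, if_pos hvl] at this
              exact this
            rw [t5] at t4
            have t6 : θ (Φ (gy j)) = (θ (Φ (gy i)) * θ (Φ (gy 0)))⁻¹ := by
              rw [mul_assoc] at t4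
              exact eq_inv_of_mul_eq_one_left t4
            rw [t6]
            have t7 : phi lam f (Y * X)⁻¹ = ((f⁻¹ * pow Y lam * f) * pow X lam)⁻¹ := by
              rw [map_inv, map_mul, phi_X, phi_Y]
            rw [t7, ← c1, ← ci]
            group
        · rw [if_neg hjl, c2 j hj hji hjl, map_one]
          group

end compat

end MPb66790.CY24
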