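import Pool.Agent.Lib.MP_b66790_nt.CY.Ev24
import Pool.Agent.Lib.MP_b66790_nt.ModL

/-!
# The covering map of the power map: image and injectivity
-/

namespace MPb66790.CY24

open Function Equiv MPb66790

section gens

variable {n : ℕ}

/-- The generator `y_j` (the loop around the root of unity `ζ ^ j`). -/
noncomputable def gy (j : ZMod (n + 1)) : FHat (n + 2) :=
  gen (Fin.succ (⟨j.val, ZMod.val_lt j⟩ : Fin (n + 1)))

/-- The loop around `0`. -/
noncomputable def g0 (n : ℕ) : FHat (n + 2) := gen 0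

variable {G : Type} [Group G] [TopologicalSpace G] [IsTopologicalGroup G] [CompactSpace G]
  [TotallyDisconnectedSpace G]

theorem ev_gy (v : G) (w : ZMod (n + 1) → G) (j : ZMod (n + 1)) : ev (mk v w) (gy j) = w j := by
  unfold gy
  rw [ev_gen, mk_succ]
  show w ((j.val : ℕ) : ZMod (n + 1)) = w j
  rw [ZMod.natCast_zmod_val]

theorem ev_g0 (v : G) (w : ZMod (n + 1) → G) : ev (mk v w) (g0 n) = v := by
  unfold g0
  rw [ev_gen, mk_zero]

theorem gen_eq (i : Fin (n + 2)) : gen i = g0 n ∨ ∃ j : ZMod (n + 1), gen i = gy j := by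
  refine Fin.cases (Or.inl rfl) (fun j => Or.inr ⟨((j : ℕ) : ZMod (n + 1)), ?_⟩) i
  unfold gy
  congr 2
  apply Fin.ext
  show (j : ℕ) = ((j : ℕ) : ZMod (n + 1)).val
  rw [ZMod.val_natCast, Nat.mod_eq_of_lt j.2]

theorem gen_ext {H : Type} [Group H] [TopologicalSpace H] [T2Space H]
    {φ ψ : FHat (n + 2) →* H} (hφ : Continuous φ) (hψ : Continuous ψ)
    (h0 : φ (g0 n) = ψ (g0 n)) (h : ∀ j : ZMod (n + 1), φ (gy j) = ψ (gy j))
    (x : FHat (n + 2)) : φ x = ψ x := by
  refine ev_hom_ext hφ hψ (fun i => ?_) x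
  rcases gen_eq i with e | ⟨j, e⟩
  · rw [e, h0]
  · rw [e, h j]

theorem cov_g0 : covMap n (g0 n) = X ^ (n + 1) := ev_g0 _ _

theorem cov_gy (j : ZMod (n + 1)) : covMap n (gy j) = X ^ j.val * Y * (X ^ j.val)⁻¹ := ev_gy _ _ _

end gens

section inj

variable {n : ℕ} {Z : Type}

/-- A cyclic turn. -/
def xc (n : ℕ) (c : Perm Z) : Perm (Z × ZMod (n + 1)) :=
  wr (Equiv.addRight 1) (fun j => if j + 1 = 0 then c else 1)

theorem xc_pow (c : Perm Z) (m : ℕ) (hm : m ≤ n + 1) (z : Z) (j : ZMod (n + 1)) :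
    (xc n c ^ m) (z, j) = ((if n + 1 ≤ j.val + m then c else 1 : Perm Z) z, j + m) := by
  induction m with
  | zero =>
    have h1 : j.val < n + 1 := ZMod.val_lt j
    rw [if_neg (by omega)]
    simp
  | succ m ih =>
    have h1 : j.val < n + 1 := ZMod.val_lt j
    rw [pow_succ', Perm.mul_apply, ih (by omega)]
    have e : ((j + m + 1 : ZMod (n + 1)) = 0) ↔ j.val + m + 1 = n + 1 := by
      have e1 : (j + m + 1 : ZMod (n + 1)) = ((j.val + m + 1 : ℕ) : ZMod (n + 1)) := by
        push_cast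
        rw [ZMod.natCast_zmod_val]
      rw [e1, ZMod.natCast_eq_zero_iff]
      constructor
      · rintro ⟨c, hc⟩
        rcases c with _ | _ | c
        · omega
        · omega
        · exfalso
          have : (n + 1) * (c + 1 + 1) ≥ (n + 1) * 2 := Nat.mul_le_mul_left _ (by omega)
          omega
      · intro h
        rw [h]
    show ((if (j + m + 1 : ZMod (n + 1)) = 0 then c else 1 : Perm Z)
      ((if n + 1 ≤ j.val + m then c else 1 : Perm Z) z), (j + m + 1 : ZMod (n + 1))) = _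
    refine Prod.ext ?_ ?_
    · show _ = (if n + 1 ≤ j.val + (m + 1) then c else 1 : Perm Z) z
      by_cases c1 : j.val + m + 1 = n + 1
      · rw [if_pos (e.2 c1), if_neg (by omega), if_pos (by omega)]
        rfl
      · by_cases c2 : n + 1 ≤ j.val + m
        · rw [if_neg (fun h => c1 (e.1 h)), if_pos c2, if_pos (by omega)]
          rfl
        · rw [if_neg (fun h => c1 (e.1 h)), if_neg c2, if_neg (by omega)]
          rfl
    · show (j + m + 1 : ZMod (n + 1)) = j + ((m + 1 : ℕ) : ZMod (n + 1))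
      push_cast
      rw [add_assoc]

theorem cov_inj : Injective (covMap n) := by
  rw [injective_iff_map_eq_one]
  intro k hk
  by_contra hne
  obtain ⟨Q, _, _, v, hv⟩ := FHat.sep_one hne
  apply hv
  -- the values
  let v0 : Q := v 0
  let vy : ZMod (n + 1) → Q := fun j => v (Fin.succ (⟨j.val, ZMod.val_lt j⟩ : Fin (n + 1)))
  have hvm : v = mk v0 vy := by
    funext i
    refine Fin.cases rfl (fun j => ?_) i
    rw [mk_succ]
    show v j.succ = v (Fin.succ _)
    congr 2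
    apply Fin.ext
    show (j : ℕ) = ((j : ℕ) : ZMod (n + 1)).val
    rw [ZMod.val_natCast, Nat.mod_eq_of_lt j.2]
  let y : Perm (Q × ZMod (n + 1)) :=
    wr 1 (fun j => Lm (if j = 0 then vy 0 else v0⁻¹ * vy (-j) * v0))
  let ι : Q → Q × ZMod (n + 1) := fun q => (q, 0)
  have key : Sl ι (evF ![xc n (Lm v0), y] (covMap n k)) (Lm (evF (mk v0 vy) k)) := by
    refine eval_cov ?_ (fun j => ?_) rfl
    · intro q
      show (xc n (Lm v0) ^ (n + 1)) (q, 0) = (Lm v0 q, 0)
      rw [xc_pow _ _ le_rfl, ZMod.natCast_self, add_zero, if_pos (by omega)]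
    · intro q
      show (xc n (Lm v0) ^ j.val * y * (xc n (Lm v0) ^ j.val)⁻¹) (q, 0) = (Lm (vy j) q, 0)
      have hj : j.val ≤ n + 1 := (ZMod.val_lt j).le
      by_cases h0 : j = 0
      · subst h0
        rw [ZMod.val_zero, pow_zero, one_mul, inv_one, mul_one]
        rfl
      · have e1 : (-j).val + j.val = n + 1 := by
          have h2 : j.val < n + 1 := ZMod.val_lt j
          rw [ZMod.neg_val, if_neg h0]
          omega
        have h1 : ∀ q' : Q, (xc n (Lm v0) ^ j.val) (q', -j) = (v0 * q', 0) := by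
          intro q'
          rw [xc_pow _ _ hj, if_pos e1.ge, ZMod.natCast_zmod_val, neg_add_cancel]
          rfl
        have h2 : (xc n (Lm v0) ^ j.val)⁻¹ (q, 0) = (v0⁻¹ * q, -j) := by
          rw [Perm.inv_eq_iff_eq, h1, mul_inv_cancel_left]
        rw [Perm.mul_apply, Perm.mul_apply, h2]
        show (xc n (Lm v0) ^ j.val)
          (Lm (if -j = 0 then vy 0 else v0⁻¹ * vy (- -j) * v0) (v0⁻¹ * q), -j) = _
        rw [if_neg (neg_ne_zero.2 h0), neg_neg, h1]
        simp [Lm, mul_assoc]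
  rw [hk, map_one] at key
  rw [hvm]
  have h1 := key 1
  have h2 := congrArg (fun z : Q × ZMod (n + 1) => z.1) h1
  have h3 : (1 : Q) = evF (mk v0 vy) k * 1 := h2
  rw [mul_one] at h3
  exact h3.symm

end inj

section tau

variable {n : ℕ}

/-- Conjugation by `x`, lifted. -/
noncomputable def tau (n : ℕ) : FHat (n + 2) →ₜ* FHat (n + 2) :=
  ev (mk (g0 n) (fun j : ZMod (n + 1) => if j + 1 = 0 then g0 n * gy 0 * (g0 n)⁻¹ else gy (j + 1)))

theorem tau_g0 : tau n (g0 n) = g0 n := ev_g0 _ _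

theorem tau_gy (j : ZMod (n + 1)) :
    tau n (gy j) = if j + 1 = 0 then g0 n * gy 0 * (g0 n)⁻¹ else gy (j + 1) := ev_gy _ _ _

theorem cov_tau (k : FHat (n + 2)) : covMap n (tau n k) = X * covMap n k * X⁻¹ := by
  refine gen_ext (φ := (covMap n).toMonoidHom.comp (tau n).toMonoidHom)
    (ψ := (MulAut.conj X).toMonoidHom.comp (covMap n).toMonoidHom)
    ((covMap n).continuous_toFun.comp (tau n).continuous_toFun) ?_ ?_ (fun j => ?_) k
  · exact (continuous_const.mul (covMap n).continuous_toFun).mul continuous_const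
  · show covMap n (tau n (g0 n)) = X * covMap n (g0 n) * X⁻¹
    rw [tau_g0, cov_g0]
    group
  · show covMap n (tau n (gy j)) = X * covMap n (gy j) * X⁻¹
    rw [tau_gy, cov_gy]
    split_ifs with h
    · rw [map_mul, map_mul, map_inv, cov_g0, cov_gy, ZMod.val_zero, pow_zero, val_last h]
      group
    · rw [cov_gy, val_succ h]
      group

/-- The iterates of `tau`. -/
noncomputable def taun (n : ℕ) : ℕ → (FHat (n + 2) →ₜ* FHat (n + 2))
  | 0 => ContinuousMonoidHom.id _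
  | r + 1 => (taun n r).comp (tau n)

theorem taun_zero (k : FHat (n + 2)) : taun n 0 k = k := rfl

theorem taun_succ (r : ℕ) (k : FHat (n + 2)) : taun n (r + 1) k = taun n r (tau n k) := rfl

theorem cov_taun (r : ℕ) (k : FHat (n + 2)) :
    covMap n (taun n r k) = X ^ r * covMap n k * (X ^ r)⁻¹ := by
  induction r generalizing k with
  | zero =>
    rw [taun_zero]
    group
  | succ r ih =>
    rw [taun_succ, ih, cov_tau]
    group

end tau

section range

variable {n : ℕ}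

theorem mem_g0 : X ^ (n + 1) ∈ (covMap n).toMonoidHom.range := ⟨g0 n, cov_g0⟩

theorem mem_conj {w : FHat 2} (h : w ∈ (covMap n).toMonoidHom.range) (r : ℕ) :
    X ^ r * w * (X ^ r)⁻¹ ∈ (covMap n).toMonoidHom.range := by
  obtain ⟨k, rfl⟩ := h
  exact ⟨taun n r k, cov_taun r k⟩

theorem mem_Y : Y ∈ (covMap n).toMonoidHom.range := ⟨gy 0, by
  show covMap n (gy 0) = Y
  rw [cov_gy, ZMod.val_zero]
  group⟩

theorem mem_Yc (r : ℕ) : (X ^ r)⁻¹ * Y * X ^ r ∈ (covMap n).toMonoidHom.range := by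
  have h := mem_conj (n := n) mem_Y ((n + 1) * r - r)
  have h2 : ∀ s : ℕ, (X ^ (n + 1)) ^ s ∈ (covMap n).toMonoidHom.range := fun s => pow_mem mem_g0 s
  have e : (X ^ r)⁻¹ * Y * X ^ r =
      ((X ^ (n + 1)) ^ r)⁻¹ * (X ^ ((n + 1) * r - r) * Y * (X ^ ((n + 1) * r - r))⁻¹) *
        (X ^ (n + 1)) ^ r := by
    have e2 : (X ^ (n + 1)) ^ r = X ^ ((n + 1) * r - r) * X ^ r := by
      rw [← pow_mul, ← pow_add]
      congr 1
      have : r ≤ (n + 1) * r := Nat.le_mul_of_pos_left _ (Nat.succ_pos n)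
      omega
    conv_rhs =>
      rw [e2]
    group
  rw [e]
  exact mul_mem (mul_mem (inv_mem (h2 r)) h) (h2 r)

/-- Membership in a coset. -/
def Cos (n : ℕ) (w : FHat 2) : Prop := ∃ r : ℕ, (X ^ r)⁻¹ * w ∈ (covMap n).toMonoidHom.range

theorem Cos.lt {w : FHat 2} (h : Cos n w) :
    ∃ r < n + 1, (X ^ r)⁻¹ * w ∈ (covMap n).toMonoidHom.range := by
  obtain ⟨r, hr⟩ := h
  refine ⟨r % (n + 1), Nat.mod_lt _ (Nat.succ_pos n), ?_⟩
  have e : (X ^ (r % (n + 1)))⁻¹ * w = (X ^ (n + 1)) ^ (r / (n + 1)) * ((X ^ r)⁻¹ * w) := by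
    have e1 : X ^ r = (X ^ (n + 1)) ^ (r / (n + 1)) * X ^ (r % (n + 1)) := by
      rw [← pow_mul, ← pow_add, Nat.div_add_mod]
    have e2 : (X ^ (n + 1)) ^ (r / (n + 1)) * X ^ (r % (n + 1)) =
        X ^ (r % (n + 1)) * (X ^ (n + 1)) ^ (r / (n + 1)) := by
      rw [← pow_mul, ← pow_add, ← pow_add, add_comm]
    rw [e1, e2]
    group
  rw [e]
  exact mul_mem (pow_mem mem_g0 _) hr

theorem cos_X {w : FHat 2} (h : Cos n w) : Cos n (X * w) := by
  obtain ⟨r, hr⟩ := h
  refine ⟨r + 1, ?_⟩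
  have e : (X ^ (r + 1))⁻¹ * (X * w) = (X ^ r)⁻¹ * w := by
    rw [pow_succ']
    group
  rwa [e]

theorem cos_Xi {w : FHat 2} (h : Cos n w) : Cos n (X⁻¹ * w) := by
  obtain ⟨r, hr⟩ := h
  refine ⟨r + n, ?_⟩
  have e : (X ^ (r + n))⁻¹ * (X⁻¹ * w) = (X ^ (n + 1))⁻¹ * ((X ^ r)⁻¹ * w) := by
    have e1 : (X ^ (r + n))⁻¹ * X⁻¹ = (X ^ (n + 1))⁻¹ * (X ^ r)⁻¹ := by
      rw [← mul_inv_rev, ← mul_inv_rev, ← pow_succ', ← pow_add]
      congr 2
    rw [← mul_assoc, e1, mul_assoc]
  rw [e]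
  exact mul_mem (inv_mem mem_g0) hr

theorem cos_Y {w : FHat 2} (h : Cos n w) : Cos n (Y * w) := by
  obtain ⟨r, hr⟩ := h
  refine ⟨r, ?_⟩
  have e : (X ^ r)⁻¹ * (Y * w) = ((X ^ r)⁻¹ * Y * X ^ r) * ((X ^ r)⁻¹ * w) := by group
  rw [e]
  exact mul_mem (mem_Yc r) hr

theorem cos_Yi {w : FHat 2} (h : Cos n w) : Cos n (Y⁻¹ * w) := by
  obtain ⟨r, hr⟩ := h
  refine ⟨r, ?_⟩
  have e : (X ^ r)⁻¹ * (Y⁻¹ * w) = ((X ^ r)⁻¹ * Y * X ^ r)⁻¹ * ((X ^ r)⁻¹ * w) := by group
  rw [e]
  exact mul_mem (inv_mem (mem_Yc r)) hr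

theorem cos_word (g : FreeGroup (Fin 2)) : ∀ w : FHat 2, Cos n w → Cos n (of g * w) := by
  induction g using FreeGroup.induction_on with
  | C1 => intro w hw; simpa using hw
  | of i =>
    intro w hw
    fin_cases i
    · exact cos_X hw
    · exact cos_Y hw
  | inv_of i _ =>
    intro w hw
    rw [map_inv]
    fin_cases i
    · exact cos_Xi hw
    · exact cos_Yi hw
  | mul a b ha hb =>
    intro w hw
    rw [map_mul, mul_assoc]
    exact ha _ (hb _ hw)

theorem isClosed_range_cov : IsClosed ((covMap n).toMonoidHom.range : Set (FHat 2)) :=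
  (isCompact_range (covMap n).continuous_toFun).isClosed

theorem exists_cov (n : ℕ) (w : FHat 2) : ∃ r < n + 1, ∃ k, w = X ^ r * covMap n k := by
  have h1 : w ∈ ⋃ r ∈ Set.Iio (n + 1),
      {w : FHat 2 | (X ^ r)⁻¹ * w ∈ (covMap n).toMonoidHom.range} := by
    refine hat_induction ?_ (fun g => ?_) w
    · refine Set.Finite.isClosed_biUnion (Set.finite_Iio _) fun r _ => ?_
      exact isClosed_range_cov.preimage (continuous_const.mul continuous_id)
    · have h2 := cos_word (n := n) g 1 ⟨0, by simp⟩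
      rw [mul_one] at h2
      obtain ⟨r, hr, h3⟩ := h2.lt
      simp only [Set.mem_iUnion]
      exact ⟨r, hr, h3⟩
  simp only [Set.mem_iUnion] at h1
  obtain ⟨r, hr, k, hk⟩ := h1
  refine ⟨r, hr, k, ?_⟩
  have h2 : covMap n k = (X ^ r)⁻¹ * w := hk
  rw [h2, mul_inv_cancel_left]

end range

section chi

variable {n : ℕ}

/-- The exponent of `x` modulo `n + 1`. -/
noncomputable def chi (n : ℕ) : FHat 2 →* Multiplicative (ZMod (n + 1)) :=
  evF ![Multiplicative.ofAdd 1, 1]

theorem chi_X : chi n X = Multiplicative.ofAdd 1 := evF_gen _ _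

theorem chi_Y : chi n Y = 1 := evF_gen _ _

theorem ofAdd_pow (r : ℕ) : (Multiplicative.ofAdd (1 : ZMod (n + 1))) ^ r =
    Multiplicative.ofAdd (r : ZMod (n + 1)) := by
  rw [← ofAdd_nsmul]
  congr 1
  simp

theorem chi_cov (k : FHat (n + 2)) : chi n (covMap n k) = 1 := by
  unfold chi
  rw [evF_covMap]
  have e : (mk ((Multiplicative.ofAdd (1 : ZMod (n + 1))) ^ (n + 1))
      (fun j : ZMod (n + 1) => (Multiplicative.ofAdd (1 : ZMod (n + 1))) ^ j.val * 1 *
        ((Multiplicative.ofAdd (1 : ZMod (n + 1))) ^ j.val)⁻¹)) = fun _ => 1 := by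
    funext i
    refine Fin.cases ?_ (fun j => ?_) i
    · rw [mk_zero, ofAdd_pow, ZMod.natCast_self]
      rfl
    · rw [mk_succ]
      group
  rw [e]
  have h := evF_map (1 : Multiplicative (ZMod (n + 1)) →* Multiplicative (ZMod (n + 1)))
    (fun _ : Fin (n + 2) => (1 : Multiplicative (ZMod (n + 1)))) k
  exact h.symm

theorem exists_cov_of_chi {w : FHat 2} (h : chi n w = 1) : ∃ k, covMap n k = w := by
  obtain ⟨r, hr, k, rfl⟩ := exists_cov n w
  rw [map_mul, chi_cov, mul_one, map_pow, chi_X, ofAdd_pow] at h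
  have h1 : (r : ZMod (n + 1)) = 0 := h
  rw [ZMod.natCast_eq_zero_iff] at h1
  have h2 : r = 0 := Nat.eq_zero_of_dvd_of_lt h1 hr
  subst h2
  exact ⟨k, by simp⟩

theorem chi_comm {f : FHat 2} (hf : f ∈ (commutator (FHat 2)).topologicalClosure) :
    chi n f = 1 := by
  have hcl : IsClosed ((chi n).ker : Set (FHat 2)) := (isClopen_lftF _ {1}).isClosed
  have h1 : commutator (FHat 2) ≤ (chi n).ker := Abelianization.commutator_subset_ker (chi n)
  exact Subgroup.topologicalClosure_minimal _ h1 hcl hf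

theorem chi_evcomm {f : FHat 2} (hf : f ∈ (commutator (FHat 2)).topologicalClosure)
    (a b : FHat 2) : chi n (ev ![a, b] f) = 1 := by
  have h : chi n (ev ![a, b] f) = evF (fun i => chi n ((![a, b] : Fin 2 → FHat 2) i)) f :=
    evF_ev _ _ _
  have e : (fun i => chi n ((![a, b] : Fin 2 → FHat 2) i)) = ![chi n a, chi n b] := by
    funext i
    fin_cases i <;> rfl
  rw [h, e]
  let _ : TopologicalSpace (Multiplicative (ZMod (n + 1))) := ⊥
  have : DiscreteTopology (Multiplicative (ZMod (n + 1))) := ⟨rfl⟩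
  exact ev_comm hf (mul_comm _ _)

theorem red_mul (a b : ZHat) : red n (a * b) = red n a + red n b := by
  unfold red
  rw [map_mul]
  rfl

theorem red_zgen : red n zgen = 1 := by
  unfold red
  have h : evF (fun _ : Fin 1 => Multiplicative.ofAdd (1 : ZMod (n + 1))) zgen =
    Multiplicative.ofAdd 1 := evF_gen _ _
  rw [h]
  rfl

theorem red_pow (a : ZHat) (r : ℕ) : red n (a ^ r) = r * red n a := by
  induction r with
  | zero =>
    rw [pow_zero, Nat.cast_zero, zero_mul]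
    unfold red
    rw [map_one]
    rfl
  | succ r ih =>
    rw [pow_succ, red_mul, ih]
    push_cast
    ring

theorem red_powP (a b : ZHat) : red n (pow a b) = red n a * red n b := by
  have h : ∀ c : ZMod (n + 1), ∀ b : ZHat,
      Multiplicative.toAdd (evF (fun _ : Fin 1 => Multiplicative.ofAdd c) b) = c * red n b := by
    intro c b
    let ψ : Multiplicative (ZMod (n + 1)) →* Multiplicative (ZMod (n + 1)) :=
      AddMonoidHom.toMultiplicative (AddMonoidHom.mulLeft c)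
    have h1 := evF_map ψ (fun _ : Fin 1 => Multiplicative.ofAdd (1 : ZMod (n + 1))) b
    have h2 : (fun _ : Fin 1 => ψ (Multiplicative.ofAdd (1 : ZMod (n + 1)))) =
        fun _ => Multiplicative.ofAdd c := by
      funext _
      show Multiplicative.ofAdd (c * 1) = _
      rw [mul_one]
    rw [h2] at h1
    rw [← h1]
    rfl
  have h3 : evF (fun _ : Fin 1 => Multiplicative.ofAdd (1 : ZMod (n + 1))) (pow a b) =
      evF (fun _ => evF (fun _ : Fin 1 => Multiplicative.ofAdd (1 : ZMod (n + 1))) a) b :=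
    evF_ev _ _ _
  unfold red at *
  rw [h3]
  exact h _ b

end chi

section div

variable {n : ℕ}

theorem exists_div (n : ℕ) (e : ZHat) : ∃ r < n + 1, ∃ m : ZHat,
    e = zgen ^ r * pow (zgen ^ (n + 1)) m := by
  have hR : IsClosed ((ev (fun _ : Fin 1 => (zgen ^ (n + 1) : ZHat))).toMonoidHom.range :
      Set ZHat) :=
    (isCompact_range (ev (fun _ : Fin 1 => (zgen ^ (n + 1) : ZHat))).continuous_toFun).isClosed
  have hz : (zgen ^ (n + 1) : ZHat) ∈
      (ev (fun _ : Fin 1 => (zgen ^ (n + 1) : ZHat))).toMonoidHom.range := ⟨zgen, pow_zgen _⟩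
  have hw : ∀ g : FreeGroup (Fin 1), ∀ w : ZHat,
      (∃ r : ℕ, (zgen ^ r)⁻¹ * w ∈ (ev (fun _ : Fin 1 => (zgen ^ (n + 1) : ZHat))).toMonoidHom.range)
      → ∃ r : ℕ, (zgen ^ r)⁻¹ * (of g * w) ∈
        (ev (fun _ : Fin 1 => (zgen ^ (n + 1) : ZHat))).toMonoidHom.range := by
    intro g
    induction g using FreeGroup.induction_on with
    | C1 => intro w hw; simpa using hw
    | of i =>
      rintro w ⟨r, hr⟩
      fin_cases i
      refine ⟨r + 1, ?_⟩
      show (zgen ^ (r + 1))⁻¹ * (zgen * w) ∈ _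
      have e : (zgen ^ (r + 1))⁻¹ * (zgen * w) = (zgen ^ r)⁻¹ * w := by
        rw [pow_succ']
        group
      rwa [e]
    | inv_of i _ =>
      rintro w ⟨r, hr⟩
      rw [map_inv]
      fin_cases i
      refine ⟨r + n, ?_⟩
      show (zgen ^ (r + n))⁻¹ * (zgen⁻¹ * w) ∈ _
      have e : (zgen ^ (r + n))⁻¹ * (zgen⁻¹ * w) = (zgen ^ (n + 1))⁻¹ * ((zgen ^ r)⁻¹ * w) := by
        have e1 : (zgen ^ (r + n))⁻¹ * zgen⁻¹ = (zgen ^ (n + 1))⁻¹ * (zgen ^ r)⁻¹ := by
          rw [← mul_inv_rev, ← mul_inv_rev, ← pow_succ', ← pow_add]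
          congr 2
        rw [← mul_assoc, e1, mul_assoc]
      rw [e]
      exact mul_mem (inv_mem hz) hr
    | mul a b ha hb =>
      intro w hw
      rw [map_mul, mul_assoc]
      exact ha _ (hb _ hw)
  have h1 : e ∈ ⋃ r ∈ Set.Iio (n + 1), {w : ZHat | (zgen ^ r)⁻¹ * w ∈
      (ev (fun _ : Fin 1 => (zgen ^ (n + 1) : ZHat))).toMonoidHom.range} := by
    refine hat_induction ?_ (fun g => ?_) e
    · refine Set.Finite.isClosed_biUnion (Set.finite_Iio _) fun r _ => ?_
      exact hR.preimage (continuous_const.mul continuous_id)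
    · have h2 := hw g 1 ⟨0, by simp⟩
      rw [mul_one] at h2
      obtain ⟨r, hr⟩ := h2
      simp only [Set.mem_iUnion]
      refine ⟨r % (n + 1), Nat.mod_lt _ (Nat.succ_pos n), ?_⟩
      have e : (zgen ^ (r % (n + 1)))⁻¹ * (of g : ZHat) =
          (zgen ^ (n + 1)) ^ (r / (n + 1)) * ((zgen ^ r)⁻¹ * (of g : ZHat)) := by
        have e1 : (zgen : ZHat) ^ r = (zgen ^ (n + 1)) ^ (r / (n + 1)) * zgen ^ (r % (n + 1)) := by
          rw [← pow_mul, ← pow_add, Nat.div_add_mod]
        have e2 : ((zgen : ZHat) ^ (n + 1)) ^ (r / (n + 1)) * zgen ^ (r % (n + 1)) =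
            zgen ^ (r % (n + 1)) * (zgen ^ (n + 1)) ^ (r / (n + 1)) := by
          rw [← pow_mul, ← pow_add, ← pow_add, add_comm]
        rw [e1, e2]
        group
      change (zgen ^ (r % (n + 1)))⁻¹ * (of g : ZHat) ∈
        (ev (fun _ : Fin 1 => (zgen ^ (n + 1) : ZHat))).toMonoidHom.range
      rw [e]
      exact mul_mem (pow_mem hz _) hr
  simp only [Set.mem_iUnion] at h1
  obtain ⟨r, hr, m, hm⟩ := h1
  refine ⟨r, hr, m, ?_⟩
  have h2 : pow (zgen ^ (n + 1)) m = (zgen ^ r)⁻¹ * e := hm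
  rw [h2, mul_inv_cancel_left]

theorem exists_div' (n : ℕ) (e : ZHat) : ∃ m : ZHat,
    e = zgen ^ (red n e).val * pow (zgen ^ (n + 1)) m := by
  obtain ⟨r, hr, m, he⟩ := exists_div n e
  have h1 : red n e = (r : ZMod (n + 1)) := by
    conv_lhs => rw [he]
    rw [red_mul, red_pow, red_powP, red_pow, red_zgen]
    push_cast
    have : ((n : ZMod (n + 1)) + 1) = 0 := by
      have := ZMod.natCast_self (n + 1)
      push_cast at this
      exact this
    rw [this]
    ring
  refine ⟨m, ?_⟩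
  rw [h1, ZMod.val_natCast, Nat.mod_eq_of_lt hr]
  exact he

end div

end MPb66790.CY24
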