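import Pool.Agent.Lib.MP_b66790_nt.Basic

/-!
# Composition of dessins with cyclic Belyi functions of the sphere

`N = n + 1`, `ζ` a primitive `N`-th root of unity. The sphere minus `0, ∞` and the `N`-th roots of
unity is mapped by `z ^ N` to the sphere minus `0, 1, ∞`. On fundamental groups (free on the loops
around `0` and around the `ζ ^ j`) this is the map `covMap n`.
-/

namespace MPb66790.CY24

open MPb66790

/-- A family indexed by `0` and by the residues `j` modulo `n + 1` (written as a family indexed by
`Fin (n + 2)`): the value at `0` is `v` and the value at `j + 1` is `w j`. -/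
def mk {n : ℕ} {α : Type} (v : α) (w : ZMod (n + 1) → α) : Fin (n + 2) → α :=
  Fin.cases v (fun j : Fin (n + 1) => w ((j : ℕ) : ZMod (n + 1)))

/-- The map `FHat (n + 2) → FHat 2` induced on fundamental groups by `z ^ (n + 1)`, from the sphere
minus `0, ∞` and the `(n + 1)`-st roots of unity to the sphere minus `0, 1, ∞`: the loop around `0`
goes to `x ^ (n + 1)` and the loop around `ζ ^ j` goes to `x ^ j y x ^ (-j)`. -/
noncomputable def covMap (n : ℕ) : FHat (n + 2) →ₜ* FHat 2 :=
  ev (mk (X ^ (n + 1)) (fun j : ZMod (n + 1) => X ^ j.val * Y * (X ^ j.val)⁻¹))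

/-- The Belyi functions `γ` of the sphere with which dessins are composed.

* `swap`: `γ = 1 - z`; `rotate`: `γ = 1 / (1 - z)`;
* `two n l`: `γ = M ^ (n + 1)`, where `M` is the Moebius map that takes `0, 1, ∞` to
  `0, 1, ∞` if `l = 0` (so `γ = z ^ (n + 1)`) and to `0, 1, ζ ^ l` if `l ≠ 0`
  (so `γ = (z / (z + ζ ^ l - 1)) ^ (n + 1)`);
* `three n i l` (for `i ≠ 0`, `i ≠ l`): `γ = M ^ (n + 1)`, where `M` is the Moebius map that takes
  `0, 1, ∞` to `1, ζ ^ i, ∞` if `l = 0` and to `1, ζ ^ i, ζ ^ l` if `l ≠ 0`. -/
inductive Cyc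
  | swap
  | rotate
  | two (n : ℕ) (l : ZMod (n + 1))
  | three (n : ℕ) (i l : ZMod (n + 1))

/-- The three marked points of `three n i l` are distinct. -/
def Cyc.Good : Cyc → Prop
  | Cyc.swap => True
  | Cyc.rotate => True
  | Cyc.two _ _ => True
  | Cyc.three _ i l => i ≠ 0 ∧ i ≠ l

/-- The values on the loops around `0` and around the `ζ ^ j` of the map induced on fundamental
groups by the inclusion of the sphere minus `0, ∞` and the roots of unity into the sphere minus
`0, 1` and `∞` (for `l = 0`) or `ζ ^ l` (for `l ≠ 0`), followed by the inverse of `M`. -/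
noncomputable def fillTwo (n : ℕ) (l : ZMod (n + 1)) : Fin (n + 2) → FHat 2 :=
  mk X (fun j => if j = 0 then Y else if j = l then Z else 1)

/-- The same for the marked points `1`, `ζ ^ i` and `∞` (for `l = 0`) or `ζ ^ l` (for `l ≠ 0`).
The loops around `1`, `ζ ^ i`, `ζ ^ l` go to `x`, `y` and a conjugate of `z`. -/
noncomputable def fillThree (n : ℕ) (i l : ZMod (n + 1)) : Fin (n + 2) → FHat 2 :=
  mk 1 (fun j => if j = 0 then X else if j = i then Y else
    if j = l then (if i.val < l.val then Z else (Y * X)⁻¹) else 1)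

/-- The subgroup of the dessin `γ ∘ β` if `H` is the subgroup of `β`: for the cyclic functions, the
image under `covMap` of the preimage of `H` under the map given by `fillTwo` or `fillThree`. -/
noncomputable def Cyc.apply : Cyc → Subgroup (FHat 2) → Subgroup (FHat 2)
  | Cyc.swap, H => swp H
  | Cyc.rotate, H => rot H
  | Cyc.two n l, H => (H.comap (ev (fillTwo n l) : FHat (n + 2) →ₜ* FHat 2).toMonoidHom).map
      (covMap n).toMonoidHom
  | Cyc.three n i l, H => (H.comap (ev (fillThree n i l) : FHat (n + 2) →ₜ* FHat 2).toMonoidHom).map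
      (covMap n).toMonoidHom

/-- The subgroup of the dessin `γ₁ ∘ ⋯ ∘ γₙ ∘ β`, where `γ₁, ..., γₙ` are the members of the
list, if `H` is the subgroup of `β`. -/
noncomputable def comp : List Cyc → Subgroup (FHat 2) → Subgroup (FHat 2)
  | [], H => H
  | γ :: w, H => γ.apply (comp w H)

/-- The reduction of a profinite integer modulo `n + 1`. -/
noncomputable def red (n : ℕ) (e : ZHat) : ZMod (n + 1) :=
  Multiplicative.toAdd (evF (fun _ => Multiplicative.ofAdd (1 : ZMod (n + 1))) e)

/-- The function `γ` with `ζ` replaced by `ζ ^ lam`. -/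
noncomputable def Cyc.twist (lam : ZHat) : Cyc → Cyc
  | Cyc.swap => Cyc.swap
  | Cyc.rotate => Cyc.rotate
  | Cyc.two n l => Cyc.two n (red n lam * l)
  | Cyc.three n i l => Cyc.three n (red n lam * i) (red n lam * l)

end MPb66790.CY24
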