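import Pool.Agent.Lib.MP_b66790_nt.CY.Set24
import Pool.Agent.Lib.MP_b66790_nt.CY.Defs24

/-!
# Evaluation of the five terms of the pentagon
-/

namespace MPb66790.CY24

open Function Equiv MPb66790

@[simp] theorem mk_zero {n : ℕ} {α : Type} (v : α) (w : ZMod (n + 1) → α) : mk v w 0 = v := rfl

@[simp] theorem mk_succ {n : ℕ} {α : Type} (v : α) (w : ZMod (n + 1) → α) (j : Fin (n + 1)) :
    mk v w j.succ = w ((j : ℕ) : ZMod (n + 1)) := rfl

theorem comp_mk {n : ℕ} {α β : Type} (φ : α → β) (v : α) (w : ZMod (n + 1) → α) :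
    (fun i => φ (mk v w i)) = mk (φ v) (fun j => φ (w j)) := by
  funext i
  refine Fin.cases ?_ (fun j => ?_) i <;> rfl

theorem evF_covMap {n : ℕ} {Q : Type} [Group Q] [Finite Q] (α β : Q) (k : FHat (n + 2)) :
    evF ![α, β] (covMap n k) =
      evF (mk (α ^ (n + 1)) (fun j : ZMod (n + 1) => α ^ j.val * β * (α ^ j.val)⁻¹)) k := by
  unfold covMap
  rw [evF_ev]
  have hX : evF ![α, β] X = α := evF_gen _ _
  have hY : evF ![α, β] Y = β := evF_gen _ _
  congr 1
  rw [comp_mk (evF ![α, β])]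
  congr 1
  funext i
  refine Fin.cases ?_ (fun j => ?_) i
  · rw [mk_zero, mk_zero, map_pow, hX]
  · rw [mk_succ, mk_succ]
    simp only [map_mul, map_inv, map_pow, hX, hY]

/-- Left multiplication as a homomorphism. -/
def LmHom (G : Type) [Group G] : G →* Perm G where
  toFun := Lm
  map_one' := by ext q; simp [Lm]
  map_mul' a b := by ext q; simp [Lm]

theorem Lm_mul {G : Type} [Group G] (a b : G) : Lm (a * b) = Lm a * Lm b := map_mul (LmHom G) a b

theorem Lm_inv {G : Type} [Group G] (a : G) : Lm a⁻¹ = (Lm a)⁻¹ := map_inv (LmHom G) a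

theorem Lm_one {G : Type} [Group G] : Lm (1 : G) = 1 := map_one (LmHom G)

theorem Lm_inj {G : Type} [Group G] {a b : G} (h : Lm a = Lm b) : a = b := by
  have := DFunLike.congr_fun h 1
  simpa [Lm] using this

theorem Lm_ev {G : Type} [Group G] [Finite G] {m : ℕ} (v : Fin m → G) (x : FHat m) :
    evF (fun i => Lm (v i)) x = Lm (evF v x) := (evF_map (LmHom G) v x).symm

section eval

variable {n : ℕ} {V G : Type} [Finite V] [Group G] [Finite G] {ι : G → V}

theorem eval_cov {α β : Perm V} {c0 : G} {c : ZMod (n + 1) → G}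
    (h0 : Sl ι (α ^ (n + 1)) (Lm c0))
    (h : ∀ j : ZMod (n + 1), Sl ι (α ^ j.val * β * (α ^ j.val)⁻¹) (Lm (c j)))
    {f : FHat 2} {k : FHat (n + 2)} (hk : covMap n k = f) :
    Sl ι (evF ![α, β] f) (Lm (evF (mk c0 c) k)) := by
  rw [← hk, evF_covMap, ← Lm_ev, comp_mk (Lm (G := G))]
  refine Sl.ev (fun i => ?_) k
  refine Fin.cases ?_ (fun j => ?_) i
  · exact h0
  · exact h _

theorem eval_two {α β : Perm V} {c d : G} (h1 : Sl ι α (Lm c)) (h2 : Sl ι β (Lm d))
    (f : FHat 2) : Sl ι (evF ![α, β] f) (Lm (evF ![c, d] f)) := by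
  rw [← Lm_ev]
  refine Sl.ev (fun i => ?_) f
  fin_cases i
  · exact h1
  · exact h2

end eval

section set

variable {n : ℕ} {Y : Type}

/-- The label set. -/
abbrev Lab (n : ℕ) : Type := ZMod (n + 1) × ZMod (n + 1)

theorem T_pow (m : ℕ) (z : Y) (i j : ZMod (n + 1)) : (pt n Y ^ m) (z, (i, j)) = (z, (i + m, j)) := by
  induction m with
  | zero => simp
  | succ m ih =>
    rw [pow_succ', Perm.mul_apply, ih]
    show (z, (i + m + 1, j)) = _
    push_cast
    rw [add_assoc]

theorem T_conj {β : Perm (Y × Lab n)} {B : Lab n → Perm Y} (hβ : ∀ z p, β (z, p) = (B p z, p))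
    (m : ZMod (n + 1)) (z : Y) (i j : ZMod (n + 1)) :
    (pt n Y ^ m.val * β * (pt n Y ^ m.val)⁻¹) (z, (i, j)) = (B (i - m, j) z, (i, j)) := by
  have h1 : (pt n Y ^ m.val)⁻¹ (z, (i, j)) = (z, (i - m, j)) := by
    rw [Perm.inv_eq_iff_eq, T_pow, ZMod.natCast_zmod_val, sub_add_cancel]
  rw [Perm.mul_apply, Perm.mul_apply, h1, hβ, T_pow, ZMod.natCast_zmod_val, sub_add_cancel]

theorem T_full (z : Y) (p : Lab n) : (pt n Y ^ (n + 1)) (z, p) = (z, p) := by
  obtain ⟨i, j⟩ := p
  rw [T_pow, ZMod.natCast_self, add_zero]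

/-- The full turn `D`. -/
def gD (n : ℕ) (S : Perm Y) : Perm (Y × Lab n) := pt n Y * ps S * pt n Y * ps S

theorem gD_apply (S : Perm Y) (z : Y) (i j : ZMod (n + 1)) :
    gD n S (z, (i, j)) = (dv S j z, (i + 1, j + 1)) := by
  unfold gD
  rw [D_eq]
  rfl

theorem D_pow (S : Perm Y) (m : ℕ) (hm : m ≤ n + 1) (z : Y) (i j : ZMod (n + 1)) :
    (gD n S ^ m) (z, (i, j)) =
      ((if n + 1 ≤ j.val + m then S * S else 1 : Perm Y) z, (i + m, j + m)) := by
  induction m with
  | zero =>
    have h1 : j.val < n + 1 := ZMod.val_lt j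
    rw [if_neg (by omega)]
    simp
  | succ m ih =>
    have h1 : j.val < n + 1 := ZMod.val_lt j
    rw [pow_succ', Perm.mul_apply, ih (by omega), gD_apply]
    have e : ((j + m + 1 : ZMod (n + 1)) = 0) ↔ j.val + m + 1 = n + 1 := by
      have e1 : (j + m + 1 : ZMod (n + 1)) = ((j.val + m + 1 : ℕ) : ZMod (n + 1)) := by
        push_cast
        rw [ZMod.natCast_zmod_val]
      rw [e1, ZMod.natCast_eq_zero_iff]
      constructor
      · rintro ⟨c, hc⟩
        rcases c with _ | _ | c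
        · omega
        · omega
        · exfalso
          have : (n + 1) * (c + 1 + 1) ≥ (n + 1) * 2 := Nat.mul_le_mul_left _ (by omega)
          omega
      · intro h
        rw [h]
    have e2 : dv S (j + m : ZMod (n + 1)) = if j.val + m + 1 = n + 1 then S * S else 1 := by
      unfold dv
      simp only [e]
    rw [e2]
    refine Prod.ext ?_ ?_
    · show _ = (if n + 1 ≤ j.val + (m + 1) then S * S else 1 : Perm Y) z
      by_cases c1 : j.val + m + 1 = n + 1
      · rw [if_pos c1, if_neg (by omega), if_pos (by omega)]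
        rfl
      · by_cases c2 : n + 1 ≤ j.val + m
        · rw [if_neg c1, if_pos c2, if_pos (by omega)]
          rfl
        · rw [if_neg c1, if_neg c2, if_neg (by omega)]
          rfl
    · show ((i + m + 1, j + m + 1) : Lab n) = (i + ((m + 1 : ℕ) : ZMod (n + 1)),
        j + ((m + 1 : ℕ) : ZMod (n + 1)))
      push_cast
      rw [add_assoc, add_assoc]

theorem D_full (S : Perm Y) (z : Y) (p : Lab n) : (gD n S ^ (n + 1)) (z, p) = ((S * S) z, p) := by
  obtain ⟨i, j⟩ := p
  rw [D_pow S _ le_rfl, ZMod.natCast_self, add_zero, add_zero, if_pos (by omega)]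

/-- The value of the path from the label `j - m` to `j`. -/
def ew (S : Perm Y) (j m : ZMod (n + 1)) : Perm Y :=
  if n + 1 ≤ (j - m).val + m.val then S * S else 1

theorem D_conj (S : Perm Y) {β : Perm (Y × Lab n)} {B : Lab n → Perm Y}
    (hβ : ∀ z p, β (z, p) = (B p z, p)) (m : ZMod (n + 1)) (z : Y) (i j : ZMod (n + 1)) :
    (gD n S ^ m.val * β * (gD n S ^ m.val)⁻¹) (z, (i, j)) =
      ((ew S j m * B (i - m, j - m) * (ew S j m)⁻¹) z, (i, j)) := by
  have hm : m.val ≤ n + 1 := (ZMod.val_lt m).le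
  have h0 : ∀ z', (gD n S ^ m.val) (z', (i - m, j - m)) = (ew S j m z', (i, j)) := by
    intro z'
    rw [D_pow S _ hm, ZMod.natCast_zmod_val, sub_add_cancel, sub_add_cancel]
    rfl
  have h1 : (gD n S ^ m.val)⁻¹ (z, (i, j)) = ((ew S j m)⁻¹ z, (i - m, j - m)) := by
    rw [Perm.inv_eq_iff_eq, h0, app_inv]
  rw [Perm.mul_apply, Perm.mul_apply, h1, hβ, h0]
  rfl

theorem ew_zero_zero (S : Perm Y) : ew S (0 : ZMod (n + 1)) 0 = 1 := by
  unfold ew
  rw [sub_zero, ZMod.val_zero]
  exact if_neg (by omega)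

theorem ew_zero (S : Perm Y) {m : ZMod (n + 1)} (hm : m ≠ 0) : ew S 0 m = S * S := by
  unfold ew
  have : (0 - m).val = n + 1 - m.val := by
    rw [zero_sub, ZMod.neg_val, if_neg hm]
  have h2 : m.val < n + 1 := ZMod.val_lt m
  exact if_pos (by omega)

theorem ew_comm (S : Perm Y) (j m : ZMod (n + 1)) : ew S j m * (S * S) * (ew S j m)⁻¹ = S * S := by
  unfold ew
  split_ifs
  · rw [mul_inv_cancel_right]
  · simp

theorem SS_apply (S : Perm Y) (z : Y) (p : Lab n) :
    (ps S * ps S : Perm (Y × Lab n)) (z, p) = ((if p.1 = p.2 then S * S else 1 : Perm Y) z, p) := by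
  obtain ⟨i, j⟩ := p
  show ((sg S j i * sg S i j) z, (i, j)) = _
  congr 2
  rcases lt_trichotomy i.val j.val with h | h | h
  · rw [if_neg (fun e : i = j => by rw [e] at h; omega)]
    unfold sg
    rw [if_neg (by omega), if_pos (by omega), inv_mul_cancel]
  · have e : i = j := ZMod.val_injective _ h
    subst e
    rw [if_pos rfl]
    unfold sg
    rw [if_pos le_rfl]
  · rw [if_neg (fun e : i = j => by rw [e] at h; omega)]
    unfold sg
    rw [if_pos (by omega), if_neg (by omega), mul_inv_cancel]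

theorem U_apply (u : ZMod (n + 1) → Perm Y) (z : Y) (p : Lab n) :
    pu u (z, p) = (u p.2 z, p) := rfl

/-- The full twist `W`. -/
def gW (S : Perm Y) (u : ZMod (n + 1) → Perm Y) : Perm (Y × Lab n) := ps S * pu u * ps S * pu u

theorem W_apply (S : Perm Y) (u : ZMod (n + 1) → Perm Y) (z : Y) (p : Lab n) :
    gW S u (z, p) = (wv S u p.1 p.2 z, p) := by
  unfold gW
  rw [W_eq]
  rfl

end set

section vals

variable {n : ℕ} {G : Type} [Group G] (a b : G) (l : ZMod (n + 1))

/-- The slice over the label `p`. -/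
def sG (p : Lab n) (q : G) : (G × Fin 6) × Lab n := (iG q, p)

/-- The values of the full twist, third strand with label `0`. -/
theorem wv_zero_zero : wv (S1 b a) (ul a b l) 0 0 = 1 := by
  unfold wv sg
  rw [if_pos le_rfl, ul_zero]
  exact rel_center a b

theorem wv_diag {i : ZMod (n + 1)} (h0 : i ≠ 0) (hl : i ≠ l) :
    wv (S1 b a) (ul a b l) i i = S1 b a * S1 b a := by
  unfold wv sg
  rw [if_pos le_rfl, ul_other a b h0 hl]
  group

theorem wv_diag_l (hl : l ≠ 0) : wv (S1 b a) (ul a b l) l l = 1 := by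
  unfold wv sg
  rw [if_pos le_rfl, ul_l a b hl]
  have h := rel_center' a b
  calc S1 b a * ((S1 b a)⁻¹ * S22 a b * S1 b a) * S1 b a * ((S1 b a)⁻¹ * S22 a b * S1 b a)
      = S22 a b * S1 b a * S22 a b * S1 b a := by group
    _ = 1 := h

theorem wv_zero_right {i : ZMod (n + 1)} (h0 : i ≠ 0) (hl : i ≠ l) :
    wv (S1 b a) (ul a b l) i 0 = S22 a b := by
  have hv : i.val ≠ 0 := fun h => h0 ((ZMod.val_eq_zero i).1 h)
  unfold wv sg
  rw [ZMod.val_zero, if_pos (Nat.zero_le _), if_neg (by omega), ul_other a b h0 hl, ul_zero]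
  group

theorem wv_zero_right_l (hl : l ≠ 0) :
    wv (S1 b a) (ul a b l) l 0 = S22 a b * S22 a b := by
  have hv : l.val ≠ 0 := fun h => hl ((ZMod.val_eq_zero l).1 h)
  unfold wv sg
  rw [ZMod.val_zero, if_pos (Nat.zero_le _), if_neg (by omega), ul_l a b hl, ul_zero]
  group

/-- The values of `W` for the second strand with label `i`, not marked. -/
theorem wv_gen_zero {i : ZMod (n + 1)} (h0 : i ≠ 0) (hl : i ≠ l) :
    wv (S1 b a) (ul a b l) 0 i = (S1 b a)⁻¹ * S22 a b * S1 b a := by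
  have hv : i.val ≠ 0 := fun h => h0 ((ZMod.val_eq_zero i).1 h)
  unfold wv sg
  rw [ZMod.val_zero, if_neg (by omega), if_pos (Nat.zero_le _), ul_other a b h0 hl, ul_zero]
  group

theorem wv_gen_l_lt {i : ZMod (n + 1)} (h0 : i ≠ 0) (hl : l ≠ 0) (h : l.val < i.val) :
    wv (S1 b a) (ul a b l) l i =
      (S1 b a * S1 b a)⁻¹ * S22 a b * (S1 b a * S1 b a) := by
  have hil : i ≠ l := by
    rintro rfl
    omega
  unfold wv sg
  rw [if_neg (by omega), if_pos (by omega), ul_other a b h0 hil, ul_l a b hl]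
  group

theorem wv_gen_l_gt {i : ZMod (n + 1)} (h0 : i ≠ 0) (hl : l ≠ 0) (h : i.val < l.val) :
    wv (S1 b a) (ul a b l) l i = S22 a b := by
  have hil : i ≠ l := by
    rintro rfl
    omega
  unfold wv sg
  rw [if_pos (by omega), if_neg (by omega), ul_other a b h0 hil, ul_l a b hl]
  group

theorem wv_gen_other {i j : ZMod (n + 1)} (h0 : i ≠ 0) (hl : i ≠ l) (hj0 : j ≠ 0) (hjl : j ≠ l)
    (hij : j ≠ i) : wv (S1 b a) (ul a b l) j i = 1 := by
  unfold wv sg
  rw [ul_other a b h0 hl, ul_other a b hj0 hjl]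
  rcases lt_trichotomy i.val j.val with h | h | h
  · rw [if_pos (by omega), if_neg (by omega)]
    group
  · exact absurd (ZMod.val_injective _ h).symm hij
  · rw [if_neg (by omega), if_pos (by omega)]
    group

end vals

end MPb66790.CY24
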