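import Pool.Agent.Lib.MP_b66790_nt.CY.Comp24
import Pool.Agent.Lib.MP_b66790_nt.ModP

/-!
# Every element of the Grothendieck-Teichmueller group commutes with cyclic Belyi functions
-/

namespace MPb66790.CY24

open Function Equiv MPb66790

section chi

variable {n : ℕ} {lam : ZHat} {f : FHat 2}

theorem chi_pow (w : FHat 2) (e : ZHat) : chi n (pow w e) = evF (fun _ : Fin 1 => chi n w) e :=
  evF_ev _ _ _

theorem chi_phi (w : FHat 2) : Multiplicative.toAdd (chi n (phi lam f w)) =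
    red n lam * Multiplicative.toAdd (chi n w) := by
  let ψ : Multiplicative (ZMod (n + 1)) →* Multiplicative (ZMod (n + 1)) :=
    AddMonoidHom.toMultiplicative (AddMonoidHom.mulLeft (red n lam))
  have h1 : chi n (phi lam f w) =
      evF (fun i => chi n ((![pow X lam, f⁻¹ * pow Y lam * f] : Fin 2 → FHat 2) i)) w :=
    evF_ev _ _ _
  have h2 : ψ (chi n w) = evF (fun i => ψ ((![Multiplicative.ofAdd 1, 1] :
      Fin 2 → Multiplicative (ZMod (n + 1))) i)) w := evF_map ψ _ w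
  have h3 : chi n (phi lam f w) = ψ (chi n w) := by
    rw [h1, h2]
    congr 2
    funext i
    fin_cases i
    · show chi n (pow X lam) = ψ (Multiplicative.ofAdd 1)
      rw [chi_pow, chi_X]
      show Multiplicative.ofAdd (red n lam) = Multiplicative.ofAdd (red n lam * 1)
      rw [mul_one]
    · show chi n (f⁻¹ * pow Y lam * f) = ψ 1
      have h4 : chi n (pow Y lam) = 1 := by
        rw [chi_pow, chi_Y]
        exact evF_one' lam
      rw [map_mul, map_mul, h4, mul_one, map_inv, inv_mul_cancel, map_one]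
  rw [h3]
  rfl

theorem chi_one_of_phi (h : IsGT lam f) {w : FHat 2} (hw : chi n (phi lam f w) = 1) :
    chi n w = 1 := by
  have h1 := chi_phi (n := n) (lam := lam) (f := f) w
  rw [hw] at h1
  exact red_unit h h1.symm

end chi

section sub

variable {n : ℕ} {lam : ZHat} {f : FHat 2}

/-- The subgroup of a composition. -/
noncomputable def cv (θ : FHat (n + 2) →ₜ* FHat 2) (H : Subgroup (FHat 2)) :
    Subgroup (FHat 2) := (H.comap θ.toMonoidHom).map (covMap n).toMonoidHom

theorem cv_act (h : IsGT lam f) {k : FHat (n + 2)} {Φ : FHat (n + 2) →ₜ* FHat (n + 2)}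
    {mm : ZMod (n + 1) → ZHat} (L : Lift n lam f k Φ mm) {θ ψ : FHat (n + 2) →ₜ* FHat 2}
    {g : FHat 2} (hg : ∀ w, g * θ (Φ w) * g⁻¹ = phi lam f (ψ w)) (H : Subgroup (FHat 2)) :
    act lam f (cv ψ H) = cv θ (cj g⁻¹ (act lam f H)) := by
  apply le_antisymm
  · rintro _ ⟨_, ⟨w, hw, rfl⟩, rfl⟩
    refine ⟨Φ w, ?_, L.hcov w⟩
    refine ⟨phi lam f (ψ w), ⟨ψ w, hw, rfl⟩, ?_⟩
    show g⁻¹ * phi lam f (ψ w) * g⁻¹⁻¹ = θ (Φ w)
    rw [← hg]
    group
  · rintro _ ⟨x, ⟨_, ⟨y, hy, rfl⟩, hxy⟩, rfl⟩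
    have hx : g⁻¹ * phi lam f y * g⁻¹⁻¹ = θ x := hxy
    obtain ⟨w, hw⟩ := h.bij.2 (covMap n x)
    have hw1 : chi n w = 1 := by
      apply chi_one_of_phi h
      rw [hw, chi_cov]
    obtain ⟨x', rfl⟩ := exists_cov_of_chi hw1
    have e1 : Φ x' = x := cov_inj (by rw [L.hcov, hw])
    have e2 : ψ x' = y := h.bij.1 (by
      rw [← hg, e1, ← hx]
      group)
    refine ⟨covMap n x', ⟨x', ?_, rfl⟩, hw⟩
    show ψ x' ∈ H
    rw [e2]
    exact hy

theorem cv_cj {θ : FHat (n + 2) →ₜ* FHat 2} (hθ : Surjective θ) (g : FHat 2)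
    (H : Subgroup (FHat 2)) : ∃ g', cv θ (cj g H) = cj g' (cv θ H) := by
  obtain ⟨G, hG⟩ := hθ g
  refine ⟨covMap n G, ?_⟩
  apply le_antisymm
  · rintro _ ⟨x, ⟨y, hy, hxy⟩, rfl⟩
    have hx : g * y * g⁻¹ = θ x := hxy
    refine ⟨covMap n (G⁻¹ * x * G), ⟨_, ?_, rfl⟩, ?_⟩
    · show θ (G⁻¹ * x * G) ∈ H
      rw [map_mul, map_mul, map_inv, hG, ← hx]
      have e : g⁻¹ * (g * y * g⁻¹) * g = y := by group
      rw [e]
      exact hy
    · show covMap n G * covMap n (G⁻¹ * x * G) * (covMap n G)⁻¹ = covMap n x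
      rw [map_mul, map_mul, map_inv]
      group
  · rintro _ ⟨_, ⟨x, hx, rfl⟩, rfl⟩
    have hx' : θ x ∈ H := hx
    refine ⟨G * x * G⁻¹, ⟨θ x, hx', ?_⟩, ?_⟩
    · show g * θ x * g⁻¹ = θ (G * x * G⁻¹)
      rw [map_mul, map_mul, map_inv, hG]
    · show covMap n (G * x * G⁻¹) = covMap n G * covMap n x * (covMap n G)⁻¹
      rw [map_mul, map_mul, map_inv]

theorem isOpen_cv (θ : FHat (n + 2) →ₜ* FHat 2) {H : Subgroup (FHat 2)}
    (hH : IsOpen (H : Set (FHat 2))) : IsOpen (cv θ H : Set (FHat 2)) := by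
  have h1 : (covMap n).toMonoidHom.range.FiniteIndex := by
    have h0 : (chi n).ker.FiniteIndex := inferInstance
    refine Subgroup.finiteIndex_of_le (H := (chi n).ker) (K := (covMap n).toMonoidHom.range) ?_
    intro w hw
    exact exists_cov_of_chi hw
  have h3 : IsOpen (H.comap θ.toMonoidHom : Set (FHat (n + 2))) := hH.preimage θ.continuous_toFun
  have h4 : (H.comap θ.toMonoidHom).FiniteIndex := by
    have : Finite (FHat (n + 2) ⧸ H.comap θ.toMonoidHom) := Subgroup.quotient_finite_of_isOpen _ h3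
    exact Subgroup.finiteIndex_of_finite_quotient
  have h5 : IsClosed (H.comap θ.toMonoidHom : Set (FHat (n + 2))) :=
    Subgroup.isClosed_of_isOpen _ h3
  have h6 : IsClosed (cv θ H : Set (FHat 2)) :=
    (h5.isCompact.image (covMap n).continuous_toFun).isClosed
  have h7 : (cv θ H).FiniteIndex := by
    constructor
    unfold cv
    rw [Subgroup.index_map]
    have h8 : (H.comap θ.toMonoidHom ⊔ (covMap n).toMonoidHom.ker).FiniteIndex :=
      Subgroup.finiteIndex_of_le le_sup_left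
    exact mul_ne_zero h8.index_ne_zero h1.index_ne_zero
  exact Subgroup.isOpen_of_isClosed_of_finiteIndex _ h6

theorem surj_two (l : ZMod (n + 1)) :
    Surjective (ev (fillTwo n l) : FHat (n + 2) →ₜ* FHat 2) := by
  intro g
  refine ⟨ev ![g0 n, gy 0] g, ?_⟩
  rw [map_ev2]
  have e0 : ev (fillTwo n l) (g0 n) = X := ev_g0 _ _
  have e1 : ev (fillTwo n l) (gy (0 : ZMod (n + 1))) = Y := by
    unfold fillTwo
    rw [ev_gy, if_pos rfl]
  rw [e0, e1]
  have e3 : (![X, Y] : Fin 2 → FHat 2) = fun i => gen i := by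
    funext i
    fin_cases i <;> rfl
  rw [e3, ev_gen_self]

theorem surj_three {i l : ZMod (n + 1)} (h0 : i ≠ 0) :
    Surjective (ev (fillThree n i l) : FHat (n + 2) →ₜ* FHat 2) := by
  intro g
  refine ⟨ev ![gy 0, gy i] g, ?_⟩
  rw [map_ev2]
  have e0 : ev (fillThree n i l) (gy (0 : ZMod (n + 1))) = X := by
    unfold fillThree
    rw [ev_gy, if_pos rfl]
  have e1 : ev (fillThree n i l) (gy i) = Y := by
    unfold fillThree
    rw [ev_gy, if_neg h0, if_pos rfl]
  rw [e0, e1]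
  have e3 : (![X, Y] : Fin 2 → FHat 2) = fun i => gen i := by
    funext i
    fin_cases i <;> rfl
  rw [e3, ev_gen_self]

end sub

section final

variable {lam : ZHat} {f : FHat 2}

theorem apply_cj (γ : Cyc) (hγ : γ.Good) (g : FHat 2) (H : Subgroup (FHat 2)) :
    ∃ g', γ.apply (cj g H) = cj g' (γ.apply H) := by
  cases γ with
  | swap => exact ⟨_, map_cj swpMap g H⟩
  | rotate => exact ⟨_, map_cj rotMap g H⟩
  | two n l => exact cv_cj (surj_two l) g H
  | three n i l => exact cv_cj (surj_three hγ.1) g H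

theorem isOpen_apply (γ : Cyc) {H : Subgroup (FHat 2)} (hH : IsOpen (H : Set (FHat 2))) :
    IsOpen (γ.apply H : Set (FHat 2)) := by
  cases γ with
  | swap => exact isOpen_swp hH
  | rotate => exact isOpen_rot hH
  | two n l => exact isOpen_cv _ hH
  | three n i l => exact isOpen_cv _ hH

theorem good_twist (h : IsGT lam f) {γ : Cyc} (hγ : γ.Good) : (γ.twist lam).Good := by
  cases γ with
  | swap => trivial
  | rotate => trivial
  | two n l => trivial
  | three n i l => exact ⟨fun e => hγ.1 (red_unit h e), fun e => hγ.2 (red_inj h e)⟩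

theorem apply_act (h : IsGT lam f) (γ : Cyc) (hγ : γ.Good) (H : Subgroup (FHat 2)) :
    ∃ g, act lam f (γ.apply H) = cj g ((γ.twist lam).apply (act lam f H)) := by
  cases γ with
  | swap => exact (stL lam f h H).1
  | rotate => exact (stL lam f h H).2
  | two n l =>
    obtain ⟨k, Φ, mm, L⟩ := exists_lift n h
    obtain ⟨g, hg⟩ := compat_two h L l
    have h1 := cv_act h L hg H
    obtain ⟨g', hg'⟩ := cv_cj (surj_two (red n lam * l)) g⁻¹ (act lam f H)
    exact ⟨g', h1.trans hg'⟩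
  | three n i l =>
    obtain ⟨k, Φ, mm, L⟩ := exists_lift n h
    obtain ⟨g, hg⟩ := compat_three h L hγ.1 hγ.2
    have h1 := cv_act h L hg H
    obtain ⟨g', hg'⟩ := cv_cj (surj_three (l := red n lam * l)
      (fun e => hγ.1 (red_unit h e))) g⁻¹ (act lam f H)
    exact ⟨g', h1.trans hg'⟩

theorem final (h : IsGT lam f) (w : List Cyc) (hw : ∀ γ ∈ w, γ.Good) (H : Subgroup (FHat 2)) :
    (IsOpen (H : Set (FHat 2)) → IsOpen (comp w H : Set (FHat 2))) ∧
    ∃ g : FHat 2, act lam f (comp w H) = cj g (comp (w.map (Cyc.twist lam)) (act lam f H)) := by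
  induction w with
  | nil =>
    refine ⟨id, 1, ?_⟩
    unfold cj
    ext x
    simp [comp]
  | cons γ w ih =>
    obtain ⟨h1, g, h2⟩ := ih (fun δ hδ => hw δ (List.mem_cons_of_mem _ hδ))
    have hγ : γ.Good := hw γ List.mem_cons_self
    refine ⟨fun hH => isOpen_apply γ (h1 hH), ?_⟩
    obtain ⟨g1, e1⟩ := apply_act h γ hγ (comp w H)
    obtain ⟨g2, e2⟩ := apply_cj (γ.twist lam) (good_twist h hγ) g
      (comp (w.map (Cyc.twist lam)) (act lam f H))
    refine ⟨g1 * g2, ?_⟩
    show act lam f (γ.apply (comp w H)) = cj (g1 * g2)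
      ((γ.twist lam).apply (comp (w.map (Cyc.twist lam)) (act lam f H)))
    rw [e1, h2, e2, cj_cj]

end final

end MPb66790.CY24
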