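import Pool.Agent.Lib.MP_b66790_nt.CY.Pent24
import Pool.Agent.Lib.MP_b66790_nt.CY.Cov24

/-!
# The identities in the free profinite group
-/

namespace MPb66790.CY24

open Function Equiv MPb66790

section fin

variable {Q : Type} [Group Q] [Finite Q]

theorem evF_X (v : Fin 2 → Q) : evF v X = v 0 := evF_gen _ _

theorem evF_Y (v : Fin 2 → Q) : evF v Y = v 1 := evF_gen _ _

theorem evF_Z (v : Fin 2 → Q) : evF v Z = (v 0 * v 1)⁻¹ := by
  unfold Z
  rw [map_inv, map_mul, evF_X, evF_Y]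

theorem evF_pow (v : Fin 2 → Q) (w : FHat 2) (e : ZHat) : evF v (pow w e) = pwF (evF v w) e :=
  evF_ev _ _ _

theorem evF_self2 (v : Fin 2 → Q) (f : FHat 2) : evF ![v 0, v 1] f = evF v f := by
  congr 2
  funext i
  fin_cases i <;> rfl

theorem evF_two {f : FHat 2} (hf : ev ![X, Y] f * ev ![Y, X] f = 1) (a b : Q) :
    evF ![b, a] f = (evF ![a, b] f)⁻¹ := by
  let _ : TopologicalSpace Q := ⊥
  have : DiscreteTopology Q := ⟨rfl⟩
  exact ev_two hf a b

theorem evF_ev_mk {n : ℕ} (v : Fin 2 → Q) (c : FHat 2) (w : ZMod (n + 1) → FHat 2)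
    (k : FHat (n + 2)) : evF v (ev (mk c w) k) = evF (mk (evF v c) (fun j => evF v (w j))) k := by
  rw [evF_ev, comp_mk (evF v)]

end fin

variable {n : ℕ} {lam : ZHat} {f : FHat 2} {k : FHat (n + 2)}

/-- The key identity for the marked points `0, 1` and `∞` or `ζ ^ l`. -/
theorem firstP (h : IsGT lam f) (hk : covMap n k = f) (l : ZMod (n + 1)) :
    ∃ e e' : ZHat, ev (fillTwo n l) k = pow Y e * f * pow X e' := by
  refine ⟨(xp 0 (xP 0 (-l)) k)⁻¹, xp 1 (xR 0 (-l)) k * xp 0 (xA 0 0) k, ?_⟩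
  refine FHat.eq_of_forall fun Q _ _ v => ?_
  have h1 := first (a := v 0) (b := v 1) (l := -l) h hk
  unfold fillTwo
  rw [evF_ev_mk, map_mul, map_mul, evF_pow, evF_pow, evF_X, evF_Y, pwF_inv, pwF_mul,
    ← evF_self2 v f, ← h1]
  congr 2
  congr 1
  funext j
  rw [apply_ite (evF v), apply_ite (evF v), evF_Y, evF_Z, map_one]
  simp only [neg_inj]

/-- The marked values. -/
noncomputable def w3P (n : ℕ) (i l : ZMod (n + 1)) (j : ZMod (n + 1)) : FHat 2 :=
  if j = 0 then X else if j = i then Y else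
    if j = l then (if i.val < l.val then Z else (Y * X)⁻¹) else 1

theorem w3_eq {Q : Type} [Group Q] [Finite Q] (v : Fin 2 → Q) {i l : ZMod (n + 1)} (h0 : i ≠ 0)
    (hl : i ≠ l) (j : ZMod (n + 1)) :
    w3 (v 1) (v 1 * v 0)⁻¹ (-l) (-i) (-j) = evF v (w3P n i l j) := by
  unfold w3 w3P
  rw [apply_ite (evF v), apply_ite (evF v), apply_ite (evF v), apply_ite (evF v), evF_Y, evF_X,
    evF_Z, map_one, map_inv, map_mul, evF_X, evF_Y]
  simp only [neg_inj, neg_eq_zero]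
  have e1 : ((v 1 * v 0)⁻¹ * v 1)⁻¹ = v 0 := by group
  have e2 : (v 1)⁻¹ * (v 1 * v 0)⁻¹ * v 1 = (v 0 * v 1)⁻¹ := by group
  rw [e1, e2]
  by_cases c1 : j = i
  · subst c1
    rw [if_pos rfl, if_neg h0, if_pos rfl]
  · rw [if_neg c1]
    by_cases c2 : j = 0
    · rw [if_pos c2, if_pos c2]
    · rw [if_neg c2, if_neg c2, if_neg c1]
      by_cases c3 : j = l
      · have hl0 : l ≠ 0 := by
          rw [← c3]
          exact c2
        have e3 : ((-l).val < (-i).val) ↔ i.val < l.val := by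
          rw [ZMod.neg_val, ZMod.neg_val, if_neg hl0, if_neg h0]
          have h1 : i.val < n + 1 := ZMod.val_lt i
          have h2 : l.val < n + 1 := ZMod.val_lt l
          omega
        rw [if_pos c3, if_pos c3]
        simp only [e3]
      · rw [if_neg c3, if_neg c3]

/-- The key identity for the marked points `1`, `ζ ^ i` and `∞` or `ζ ^ l`. -/
theorem secondP (h : IsGT lam f) (hk : covMap n k = f) {i l : ZMod (n + 1)} (h0 : i ≠ 0)
    (hl : i ≠ l) :
    ∃ e e' : ZHat, ev (mk 1 (fun j => w3P n i l (j + i))) k * (ev (fillThree n i l) k)⁻¹ =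
      pow Y e * f * pow X e' := by
  have key : ∃ E E' : ZHat, ∀ (Q : Type) [Group Q] [Finite Q] (v : Fin 2 → Q),
      evF v (ev (fillThree n i l) k) * (evF v (ev (mk 1 (fun j => w3P n i l (j + i))) k))⁻¹ =
        pwF (v 0) E * evF ![v 1, v 0] f * pwF (v 1) E' := by
    refine ⟨xp 0 (xP (-i) (-l)) k * (xp 0 (xP 0 (-l)) k)⁻¹,
      xp 1 (xR 0 (-l)) k * xp 0 (xA 0 0) k * (xp 0 (xA (-i) 0) k)⁻¹ * xp 0 (xA 0 (-i)) k *
      (xp 0 (xA (-i) (-i)) k)⁻¹ * (xp 1 (xR (-i) (-l)) k)⁻¹, ?_⟩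
    intro Q _ _ v
    have h1 := second (a := v 1) (b := (v 1 * v 0)⁻¹) (l := -l) h hk (neg_ne_zero.2 h0)
      (fun e => hl (neg_injective e))
    have e1 : ((v 1 * v 0)⁻¹ * v 1)⁻¹ = v 0 := by group
    have e2 : evF v (ev (fillThree n i l) k) =
        evF (mk 1 (fun m => w3 (v 1) (v 1 * v 0)⁻¹ (-l) (-i) (0 - m))) k := by
      show evF v (ev (mk 1 (w3P n i l)) k) = _
      rw [evF_ev_mk, map_one]
      congr 2
      congr 1
      funext j
      rw [zero_sub, w3_eq v h0 hl]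
    have e3 : evF v (ev (mk 1 (fun j => w3P n i l (j + i))) k) =
        evF (mk 1 (fun m => w3 (v 1) (v 1 * v 0)⁻¹ (-l) (-i) (-i - m))) k := by
      rw [evF_ev_mk, map_one]
      congr 2
      congr 1
      funext j
      rw [← w3_eq v h0 hl]
      congr 1
      ring
    rw [e2, e3, h1, e1]
    simp only [pwF_mul, pwF_inv]
    group
  obtain ⟨E, E', hE⟩ := key
  refine ⟨E'⁻¹, E⁻¹, ?_⟩
  refine FHat.eq_of_forall fun Q _ _ v => ?_
  have h1 := hE Q v
  rw [map_mul, map_inv, map_mul, map_mul, evF_pow, evF_pow, evF_X, evF_Y, pwF_inv, pwF_inv,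
    ← evF_self2 v f]
  have h2 : evF ![v 0, v 1] f = (evF ![v 1, v 0] f)⁻¹ := evF_two h.two _ _
  rw [h2]
  have h3 := congrArg (fun x => x⁻¹) h1
  simp only [mul_inv_rev, inv_inv] at h3
  rw [h3]
  group

end MPb66790.CY24
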