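import Pool.Agent.Lib.MP_b66790_nt.CY.Id24

/-!
# Lifting the automorphism of an element of the Grothendieck-Teichmueller group
-/

namespace MPb66790.CY24

open Function Equiv MPb66790

section powers

variable {G : Type} [Group G] [TopologicalSpace G] [IsTopologicalGroup G] [CompactSpace G]
  [TotallyDisconnectedSpace G]

theorem pow_npow (g : G) (e : ZHat) (r : ℕ) : pow g (e ^ r) = (pow g e) ^ r :=
  map_pow (ev (fun _ : Fin 1 => g)) e r

theorem pow_zgen_pow (g : G) (r : ℕ) : pow g (zgen ^ r) = g ^ r := by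
  rw [pow_npow, pow_zgen]

/-- `(g ^ N) ^ m = g ^ (z ^ N, m)`. -/
theorem pow_pow_zgen (g : G) (r : ℕ) (m : ZHat) : pow g (pow (zgen ^ r) m) = pow (g ^ r) m := by
  rw [← pow_pow, pow_zgen_pow]

theorem pow_npow' (g : G) (e : ZHat) (r : ℕ) : pow (g ^ r) e = (pow g e) ^ r := by
  induction r with
  | zero => simp
  | succ r ih =>
    have hc : Commute (pow (g ^ r) e) g :=
      (commute_pow ((Commute.refl g).pow_right r) e).symm
    have key : ∀ x y : G, Commute x y → ∀ e : ZHat, pow (x * y) e = pow x e * pow y e := by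
      intro x y hxy e
      have hcc : ∀ a b : ZHat, Commute (pow x a) (pow y b) := fun a b =>
        commute_pow (commute_pow hxy.symm a).symm b
      let ψ : ZHat →* G := MonoidHom.mk' (fun a => pow x a * pow y a) (fun a b => by
        show pow x (a * b) * pow y (a * b) = pow x a * pow y a * (pow x b * pow y b)
        rw [pow_mul', pow_mul']
        calc pow x a * pow x b * (pow y a * pow y b)
            = pow x a * (pow x b * pow y a) * pow y b := by group
          _ = pow x a * (pow y a * pow x b) * pow y b := by rw [(hcc b a).eq]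
          _ = _ := by group)
      refine ev_hom_ext (φ := (ev (fun _ : Fin 1 => x * y)).toMonoidHom) (ψ := ψ)
        (ev (fun _ : Fin 1 => x * y)).continuous_toFun ?_ (fun i => ?_) e
      · exact (ev (fun _ : Fin 1 => x)).continuous_toFun.mul
          (ev (fun _ : Fin 1 => y)).continuous_toFun
      · show ev (fun _ : Fin 1 => x * y) (gen i) = ev (fun _ : Fin 1 => x) (gen i) *
          ev (fun _ : Fin 1 => y) (gen i)
        rw [ev_gen, ev_gen, ev_gen]
    rw [pow_succ, key _ _ ((Commute.refl g).pow_left r), ih, pow_succ]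

theorem pow_inv' (g : G) (e : ZHat) : pow g⁻¹ e = (pow g e)⁻¹ := by
  have h : ∀ e, pow g⁻¹ e * pow g e = 1 := by
    intro e
    let ψ : ZHat →* G := MonoidHom.mk' (fun a => (pow g a)⁻¹) (fun a b => by
      show (pow g (a * b))⁻¹ = (pow g a)⁻¹ * (pow g b)⁻¹
      rw [pow_mul', mul_inv_rev]
      have hc : Commute (pow g a) (pow g b) := commute_pow (commute_pow (Commute.refl g) a).symm b
      exact (hc.inv_inv).eq.symm)
    have h1 : pow g⁻¹ e = ψ e := by
      refine ev_hom_ext (φ := (ev (fun _ : Fin 1 => g⁻¹)).toMonoidHom) (ψ := ψ)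
        (ev (fun _ : Fin 1 => g⁻¹)).continuous_toFun ?_ (fun i => ?_) e
      · exact (ev (fun _ : Fin 1 => g)).continuous_toFun.inv
      · show ev (fun _ : Fin 1 => g⁻¹) (gen i) = (ev (fun _ : Fin 1 => g) (gen i))⁻¹
        rw [ev_gen, ev_gen]
    rw [h1]
    show (pow g e)⁻¹ * pow g e = 1
    group
  exact eq_inv_of_mul_eq_one_left (h e)

end powers

section phiZ

/-- The action on `z`. -/
theorem phi_Z {lam : ZHat} {f : FHat 2} (h : IsGT lam f) :
    ∃ u : FHat 2, phi lam f Z = u * pow Z lam * u⁻¹ := by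
  have htwo : ev ![X, Y] f * ev ![Y, X] f = 1 := h.two
  obtain ⟨m, hm, h3'⟩ := h.three
  have h3 : ev ![Z, X] f * pow Z m * ev ![Y, Z] f * pow Y m * ev ![X, Y] f * pow X m = 1 := h3'
  have e0 : ev ![X, Y] f = f := by
    have e3 : (![X, Y] : Fin 2 → FHat 2) = fun i => gen i := by
      funext i
      fin_cases i <;> rfl
    rw [e3, ev_gen_self]
  set a := ev ![Z, X] f with ha
  set b := ev ![Y, Z] f with hb
  rw [e0] at h3
  have hsw := congrArg swpMap h3
  simp only [map_mul, map_one, map_pow', swpMap_X, swpMap_Y] at hsw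
  have esf : swpMap f = f⁻¹ := by
    have h2 : ev ![Y, X] f = (ev ![X, Y] f)⁻¹ := ev_two htwo X Y
    rw [e0] at h2
    exact h2
  have hZ' : swpMap Z = Y * Z * Y⁻¹ := by
    unfold Z
    rw [map_inv, map_mul, swpMap_X, swpMap_Y]
    group
  have hZ'' : swpMap Z = X⁻¹ * Z * X := by
    unfold Z
    rw [map_inv, map_mul, swpMap_X, swpMap_Y]
    group
  have esa : swpMap a = Y * b⁻¹ * Y⁻¹ := by
    rw [ha, map_ev2, swpMap_X, hZ', hb, ← ev_two htwo Y Z, conj_ev2]
    congr 3
    group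
  have esb : swpMap b = X⁻¹ * a⁻¹ * X := by
    rw [hb, map_ev2, swpMap_Y, hZ'', ha, ← ev_two htwo Z X]
    have := conj_ev2 X⁻¹ X Z f
    rw [inv_inv] at this
    rw [this]
    congr 3
    group
  rw [esa, esb, esf, hZ'] at hsw
  rw [← conj_pow' Y Z m] at hsw
  have hYX : Y⁻¹ * X⁻¹ = Z := by
    unfold Z
    group
  have H2 : b⁻¹ * pow Z m * Z * a⁻¹ * X * pow X m * f⁻¹ * pow Y m * Y = 1 := by
    calc b⁻¹ * pow Z m * Z * a⁻¹ * X * pow X m * f⁻¹ * pow Y m * Y
        = Y⁻¹ * (Y * b⁻¹ * Y⁻¹ * (Y * pow Z m * Y⁻¹) * (X⁻¹ * a⁻¹ * X) * pow X m * f⁻¹ *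
          pow Y m) * Y := by
          rw [← hYX]
          group
      _ = 1 := by
          rw [hsw]
          group
  have h4 : phi lam f Z = (phi lam f Y)⁻¹ * (phi lam f X)⁻¹ := by
    conv_lhs => unfold Z
    rw [map_inv, map_mul, mul_inv_rev]
  refine ⟨pow X m * a, ?_⟩
  rw [h4, phi_X, phi_Y, hm, pow_lam, pow_lam, pow_lam]
  have cZ := (comm_pow_self Z m).eq
  have cX := (comm_pow_self X m).eq
  have cY := (comm_pow_self Y m).eq
  have h5 : pow X m * a * pow Z m = f⁻¹ * (pow Y m)⁻¹ * b⁻¹ := by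
    have : a * pow Z m * b * pow Y m * f * pow X m = 1 := h3
    have h6 : pow X m * (a * pow Z m * b * pow Y m * f) = 1 := by
      exact mul_eq_one_comm.1 this
    calc pow X m * a * pow Z m
        = pow X m * (a * pow Z m * b * pow Y m * f) * (f⁻¹ * (pow Y m)⁻¹ * b⁻¹) := by group
      _ = f⁻¹ * (pow Y m)⁻¹ * b⁻¹ := by rw [h6, one_mul]
  have h6 : pow Z m * Z * a⁻¹ * X * pow X m = b * Y⁻¹ * (pow Y m)⁻¹ * f := by
    calc pow Z m * Z * a⁻¹ * X * pow X m
        = b * (b⁻¹ * pow Z m * Z * a⁻¹ * X * pow X m * f⁻¹ * pow Y m * Y) *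
          (Y⁻¹ * (pow Y m)⁻¹ * f) := by group
      _ = b * Y⁻¹ * (pow Y m)⁻¹ * f := by rw [H2]; group
  have h7 : (pow X m * a * pow Z m) * (pow Z m * Z * a⁻¹ * X * pow X m) =
      f⁻¹ * (pow Y m)⁻¹ * Y⁻¹ * (pow Y m)⁻¹ * f := by
    rw [h5, h6]
    group
  have h8 : (f⁻¹ * (Y * pow Y m * pow Y m) * f)⁻¹ =
      f⁻¹ * (pow Y m)⁻¹ * Y⁻¹ * (pow Y m)⁻¹ * f := by
    rw [cY]
    group
  rw [h8, ← h7]
  have h9 : pow Z m * pow Z m * Z = Z * pow Z m * pow Z m := by
    rw [mul_assoc, ← cZ, ← mul_assoc, ← cZ]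
  have h10 : X * (pow X m)⁻¹ * X⁻¹ = (pow X m)⁻¹ := by
    rw [((comm_pow_self X m).inv_right).eq, mul_inv_cancel_right]
  calc (pow X m * a * pow Z m) * (pow Z m * Z * a⁻¹ * X * pow X m) *
        (X * pow X m * pow X m)⁻¹
      = pow X m * a * (pow Z m * pow Z m * Z) * a⁻¹ * (X * (pow X m)⁻¹ * X⁻¹) := by group
    _ = pow X m * a * (Z * pow Z m * pow Z m) * a⁻¹ * (pow X m)⁻¹ := by rw [h9, h10]
    _ = _ := by group

end phiZ

section lift

variable {n : ℕ} {lam : ZHat} {f : FHat 2}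

/-- The data of a lift. -/
structure Lift (n : ℕ) (lam : ZHat) (f : FHat 2) (k : FHat (n + 2))
    (Φ : FHat (n + 2) →ₜ* FHat (n + 2)) (mm : ZMod (n + 1) → ZHat) : Prop where
  hk : covMap n k = f
  h0 : Φ (g0 n) = pow (g0 n) lam
  hy0 : Φ (gy 0) = k⁻¹ * pow (gy 0) lam * k
  hy : ∀ j : ZMod (n + 1), j ≠ 0 → Φ (gy j) = pow (g0 n) (mm j) *
    taun n (red n lam * j).val (k⁻¹ * pow (gy 0) lam * k) * (pow (g0 n) (mm j))⁻¹
  hcov : ∀ w, covMap n (Φ w) = phi lam f (covMap n w)

theorem exists_lift (n : ℕ) (h : IsGT lam f) : ∃ k Φ mm, Lift n lam f k Φ mm := by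
  obtain ⟨k, hk⟩ := exists_cov_of_chi (n := n) (chi_comm h.comm)
  have hm : ∀ j : ZMod (n + 1), ∃ m : ZHat,
      lam ^ j.val = zgen ^ (red n lam * j).val * pow (zgen ^ (n + 1)) m := by
    intro j
    obtain ⟨m, hm⟩ := exists_div' n (lam ^ j.val)
    refine ⟨m, ?_⟩
    rw [red_pow, ZMod.natCast_zmod_val, mul_comm j] at hm
    exact hm
  choose mm hmm using hm
  let Φ : FHat (n + 2) →ₜ* FHat (n + 2) := ev (mk (pow (g0 n) lam) (fun j : ZMod (n + 1) =>
    if j = 0 then k⁻¹ * pow (gy 0) lam * k else pow (g0 n) (mm j) *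
      taun n (red n lam * j).val (k⁻¹ * pow (gy 0) lam * k) * (pow (g0 n) (mm j))⁻¹))
  have e0 : Φ (g0 n) = pow (g0 n) lam := ev_g0 _ _
  have ey0 : Φ (gy 0) = k⁻¹ * pow (gy 0) lam * k := by
    show ev (mk _ _) (gy 0) = _
    rw [ev_gy, if_pos rfl]
  have ey : ∀ j : ZMod (n + 1), j ≠ 0 → Φ (gy j) = pow (g0 n) (mm j) *
      taun n (red n lam * j).val (k⁻¹ * pow (gy 0) lam * k) * (pow (g0 n) (mm j))⁻¹ := by
    intro j hj
    show ev (mk _ _) (gy j) = _
    rw [ev_gy, if_neg hj]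
  have ck : covMap n (k⁻¹ * pow (gy 0) lam * k) = f⁻¹ * pow Y lam * f := by
    rw [map_mul, map_mul, map_inv, hk, map_pow', cov_gy, ZMod.val_zero]
    have : X ^ 0 * Y * (X ^ 0)⁻¹ = Y := by group
    rw [this]
  refine ⟨k, Φ, mm, hk, e0, ey0, ey, ?_⟩
  intro w
  refine gen_ext (φ := (covMap n).toMonoidHom.comp Φ.toMonoidHom)
    (ψ := (phi lam f).toMonoidHom.comp (covMap n).toMonoidHom)
    ((covMap n).continuous_toFun.comp Φ.continuous_toFun)
    ((phi lam f).continuous_toFun.comp (covMap n).continuous_toFun) ?_ (fun j => ?_) w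
  · show covMap n (Φ (g0 n)) = phi lam f (covMap n (g0 n))
    rw [e0, map_pow', cov_g0, map_pow, phi_X, pow_npow']
  · show covMap n (Φ (gy j)) = phi lam f (covMap n (gy j))
    by_cases hj : j = 0
    · subst hj
      rw [ey0, ck, cov_gy, ZMod.val_zero]
      have : X ^ 0 * Y * (X ^ 0)⁻¹ = Y := by group
      rw [this, phi_Y]
    · rw [ey j hj, map_mul, map_mul, map_inv, map_pow', cov_g0, cov_taun, ck, cov_gy,
        map_mul, map_mul, map_inv, map_pow, phi_X, phi_Y, ← pow_npow, hmm j, pow_mul',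
        pow_zgen_pow, pow_pow_zgen]
      have hc : Commute (X ^ (red n lam * j).val) (pow (X ^ (n + 1)) (mm j)) :=
        commute_pow ((Commute.refl X).pow_pow _ _) _
      rw [hc.eq]
      group

/-- The value of a lift on a loop. -/
theorem Lift.fill {k : FHat (n + 2)} {Φ : FHat (n + 2) →ₜ* FHat (n + 2)}
    {mm : ZMod (n + 1) → ZHat} (L : Lift n lam f k Φ mm) {j : ZMod (n + 1)} (hj : j ≠ 0)
    (θ : FHat (n + 2) →ₜ* FHat 2) : ∃ u : FHat 2,
    θ (Φ (gy j)) = u * pow (θ (taun n (red n lam * j).val (gy 0))) lam * u⁻¹ := by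
  refine ⟨θ (pow (g0 n) (mm j) * (taun n (red n lam * j).val k)⁻¹), ?_⟩
  rw [L.hy j hj]
  simp only [map_mul, map_inv, map_pow']
  group

end lift

section taugy

variable {n : ℕ}

theorem taun_gy (r : ℕ) (hr : r < n + 1) (j : ZMod (n + 1)) (hj : j.val + r < n + 1) :
    taun n r (gy j) = gy (j + (r : ZMod (n + 1))) := by
  induction r generalizing j with
  | zero =>
    rw [taun_zero]
    simp
  | succ r ih =>
    rw [taun_succ, tau_gy]
    have h1 : j + 1 ≠ 0 := by
      intro h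
      have := val_last h
      omega
    rw [if_neg h1, ih (by omega) _ (by rw [val_succ h1]; omega)]
    congr 1
    push_cast
    ring

theorem taun_gy0 (c : ZMod (n + 1)) : taun n c.val (gy 0) = gy c := by
  rw [taun_gy c.val (ZMod.val_lt c) 0 (by rw [ZMod.val_zero, zero_add]; exact ZMod.val_lt c)]
  rw [zero_add, ZMod.natCast_zmod_val]

/-- If the loop around `0` goes to `1`, then `tau` is a shift of the values. -/
theorem ev_taun (w : ZMod (n + 1) → FHat 2) (r : ℕ) (x : FHat (n + 2)) :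
    ev (mk 1 w) (taun n r x) = ev (mk 1 (fun j => w (j + (r : ZMod (n + 1))))) x := by
  induction r generalizing x w with
  | zero =>
    rw [taun_zero]
    simp
  | succ r ih =>
    rw [taun_succ, ih]
    refine gen_ext (φ := (ev (mk 1 (fun j => w (j + (r : ZMod (n + 1)))))).toMonoidHom.comp (tau n).toMonoidHom)
      (ψ := (ev (mk 1 (fun j : ZMod (n + 1) => w (j + ((r + 1 : ℕ) : ZMod (n + 1)))))).toMonoidHom)
      ((ev (mk 1 (fun j => w (j + (r : ZMod (n + 1)))))).continuous_toFun.comp (tau n).continuous_toFun)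
      (ev (mk 1 (fun j : ZMod (n + 1) => w (j + ((r + 1 : ℕ) : ZMod (n + 1)))))).continuous_toFun
      ?_ (fun j => ?_) x
    · show ev (mk 1 (fun j => w (j + (r : ZMod (n + 1))))) (tau n (g0 n)) = ev (mk 1 _) (g0 n)
      rw [tau_g0, ev_g0, ev_g0]
    · show ev (mk 1 (fun j => w (j + (r : ZMod (n + 1))))) (tau n (gy j)) = ev (mk 1 _) (gy j)
      rw [tau_gy, ev_gy]
      split_ifs with hj
      · rw [map_mul, map_mul, map_inv, ev_g0, ev_gy]
        have : j = -1 := eq_neg_of_add_eq_zero_left hj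
        rw [this]
        push_cast
        have e : (0 : ZMod (n + 1)) + r = -1 + (r + 1) := by ring
        rw [e]
        group
      · rw [ev_gy]
        push_cast
        congr 1
        ring

end taugy

end MPb66790.CY24
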