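import Pool.Agent.Lib.MP_b66790_nt.CY.Ev24

/-!
# The identities for cyclic coverings, in finite groups
-/

namespace MPb66790.CY24

open Function Equiv MPb66790

/-- Powers in a finite group with profinite exponents. -/
noncomputable def pwF {G : Type} [Group G] [Finite G] (g : G) (e : ZHat) : G :=
  evF (fun _ : Fin 1 => g) e

theorem pwF_mul {G : Type} [Group G] [Finite G] (g : G) (e e' : ZHat) :
    pwF g (e * e') = pwF g e * pwF g e' := map_mul _ _ _

theorem pwF_inv {G : Type} [Group G] [Finite G] (g : G) (e : ZHat) :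
    pwF g e⁻¹ = (pwF g e)⁻¹ := map_inv _ _

/-- The exponent. -/
noncomputable def xp {n : ℕ} (c0 : ℕ) (c : ZMod (n + 1) → ℕ) (k : FHat (n + 2)) : ZHat :=
  ev (mk (zgen ^ c0) (fun m => zgen ^ c m)) k

theorem evF_xp {n : ℕ} {G : Type} [Group G] [Finite G] (g : G) (c0 : ℕ) (c : ZMod (n + 1) → ℕ)
    (k : FHat (n + 2)) : evF (mk (g ^ c0) (fun m => g ^ c m)) k = pwF g (xp c0 c k) := by
  unfold pwF xp
  rw [evF_ev]
  have h : evF (fun _ : Fin 1 => g) zgen = g := evF_gen _ _
  congr 1
  congr 1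
  funext i
  refine Fin.cases ?_ (fun j => ?_) i
  · rw [mk_zero, mk_zero, map_pow, h]
  · rw [mk_succ, mk_succ, map_pow, h]

theorem evF_one_left {G : Type} [Group G] [Finite G] {f : FHat 2}
    (hf : f ∈ (commutator (FHat 2)).topologicalClosure) (c : G) : evF ![1, c] f = 1 := by
  let _ : TopologicalSpace G := ⊥
  have : DiscreteTopology G := ⟨rfl⟩
  exact ev_comm hf (Commute.one_left c)

theorem evF_one_right {G : Type} [Group G] [Finite G] {f : FHat 2}
    (hf : f ∈ (commutator (FHat 2)).topologicalClosure) (c : G) : evF ![c, 1] f = 1 := by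
  let _ : TopologicalSpace G := ⊥
  have : DiscreteTopology G := ⟨rfl⟩
  exact ev_comm hf (Commute.one_right c)

section slices

variable {n : ℕ} {G : Type} [Group G]

/-- A slice over the label `p`, twisted by `c`. -/
def sC (c : Perm (G × Fin 6)) (p : Lab n) (q : G) : (G × Fin 6) × Lab n := (c (iG q), p)

theorem sl_of {c : Perm (G × Fin 6)} {p : Lab n} {g : Perm ((G × Fin 6) × Lab n)}
    {B : Perm (G × Fin 6)} {v : G} (hg : ∀ z, g (z, p) = (B z, p))
    (hB : Sl iG (c⁻¹ * B * c) (Lm v)) : Sl (sC c p) g (Lm v) := by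
  intro q
  unfold sC
  rw [hg]
  have h := hB q
  rw [Perm.mul_apply, Perm.mul_apply, Perm.inv_eq_iff_eq] at h
  rw [h]

theorem sC_inj {c : Perm (G × Fin 6)} {p : Lab n} {q q' : G} (h : sC c p q = sC c p q') :
    q = q' := by
  have h1 := congrArg (fun v : (G × Fin 6) × Lab n => v.1) h
  have h2 : c (iG q) = c (iG q') := h1
  have h3 := c.injective h2
  have h4 := congrArg (fun v : G × Fin 6 => v.1) h3
  exact h4

theorem Sl.unique {c : Perm (G × Fin 6)} {p : Lab n} {g : Perm ((G × Fin 6) × Lab n)} {v w : G}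
    (h1 : Sl (sC c p) g (Lm v)) (h2 : Sl (sC c p) g (Lm w)) : v = w := by
  apply Lm_inj
  ext q
  exact sC_inj (c := c) (p := p) (by rw [← h1, ← h2])

end slices

section main

variable {n : ℕ} {G : Type} [Group G] (a b : G) (l : ZMod (n + 1))

/-- Conjugates of the values by `c = 1` or `c = S1`; `b'` is the value of `S22`, `w` the value of
`S1 * S22 * S1⁻¹`. -/
structure CV (c : Perm (G × Fin 6)) (b' w : G) : Prop where
  h11 : Sl iG (c⁻¹ * (S1 b a * S1 b a) * c) (Lm a)
  h22 : Sl iG (c⁻¹ * S22 a b * c) (Lm b')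
  hw : Sl iG (c⁻¹ * (S1 b a * S22 a b * (S1 b a)⁻¹) * c) (Lm w)

theorem cv_one : CV a b 1 b (a * b)⁻¹ := by
  constructor
  · have e : (1 : Perm (G × Fin 6))⁻¹ * (S1 b a * S1 b a) * 1 = S1 b a * S1 b a := by group
    rw [e]
    exact sl_11 a b
  · have e : (1 : Perm (G × Fin 6))⁻¹ * S22 a b * 1 = S22 a b := by group
    rw [e]
    exact sl_22 a b
  · have e : (1 : Perm (G × Fin 6))⁻¹ * (S1 b a * S22 a b * (S1 b a)⁻¹) * 1 =
      S1 b a * S22 a b * (S1 b a)⁻¹ := by group
    rw [e]
    exact sl_ab a b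

theorem cv_S1 : CV a b (S1 b a) (b * a)⁻¹ b := by
  constructor
  · have e : (S1 b a)⁻¹ * (S1 b a * S1 b a) * S1 b a = S1 b a * S1 b a := by
      rw [inv_mul_cancel_left]
    rw [e]
    exact sl_11 a b
  · exact sl_ba a b
  · have e : (S1 b a)⁻¹ * (S1 b a * S22 a b * (S1 b a)⁻¹) * S1 b a = S22 a b := by group
    rw [e]
    exact sl_22 a b

theorem sl_one' {c : Perm (G × Fin 6)} : Sl iG (c⁻¹ * 1 * c) (Lm (1 : G)) := by
  have e : c⁻¹ * 1 * c = 1 := by group
  rw [e, Lm_one]
  exact Sl.one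

theorem sl_sq {c B : Perm (G × Fin 6)} {v : G} (h : Sl iG (c⁻¹ * B * c) (Lm v)) :
    Sl iG (c⁻¹ * (B * B) * c) (Lm (v ^ 2)) := by
  have e : c⁻¹ * (B * B) * c = (c⁻¹ * B * c) * (c⁻¹ * B * c) := by group
  rw [e, pow_two, Lm_mul]
  exact h.mul h

variable [Finite G] {lam : ZHat} {f : FHat 2} {k : FHat (n + 2)}
variable {a b l}

/-- The term `h` at the label `(i, 0)`. -/
theorem val_h {c : Perm (G × Fin 6)} {b' w : G} (hc : CV a b c b' w) (i : ZMod (n + 1))
    (hk : covMap n k = f) :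
    Sl (sC c (i, 0)) (evF ![gD n (S1 b a), pu (ul a b l)] f)
      (Lm (evF (mk a (fun m => if m = 0 then b' else if -m = l then w else 1)) k)) := by
  refine eval_cov ?_ (fun m => ?_) hk
  · exact sl_of (fun z => D_full _ z _) hc.h11
  · refine sl_of (fun z => D_conj (S1 b a) (U_apply (ul a b l)) m z i 0) ?_
    show Sl iG (c⁻¹ * (ew (S1 b a) 0 m * ul a b l (0 - m) * (ew (S1 b a) 0 m)⁻¹) * c) _
    rw [zero_sub]
    by_cases hm : m = 0
    · subst hm
      rw [if_pos rfl, ew_zero_zero, neg_zero, ul_zero]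
      have e : (1 : Perm (G × Fin 6)) * S22 a b * 1⁻¹ = S22 a b := by group
      rw [e]
      exact hc.h22
    · rw [if_neg hm, ew_zero _ hm]
      by_cases hl : -m = l
      · have hl0 : l ≠ 0 := by
          rw [← hl]
          exact neg_ne_zero.2 hm
        rw [if_pos hl, hl, ul_l a b hl0]
        have e : S1 b a * S1 b a * ((S1 b a)⁻¹ * S22 a b * S1 b a) * (S1 b a * S1 b a)⁻¹ =
          S1 b a * S22 a b * (S1 b a)⁻¹ := by group
        rw [e]
        exact hc.hw
      · rw [if_neg hl, ul_other a b (neg_ne_zero.2 hm) hl]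
        have e : S1 b a * S1 b a * 1 * (S1 b a * S1 b a)⁻¹ = 1 := by group
        rw [e]
        exact sl_one'

/-- The exponents of the term `P` at the label `(i, 0)`. -/
def xP (i l m : ZMod (n + 1)) : ℕ := if i - m = 0 then 0 else if i - m = l then 2 else 1

/-- The term `P` at the label `(i, 0)`. -/
theorem val_P {c : Perm (G × Fin 6)} {b' w : G} (hc : CV a b c b' w) (i : ZMod (n + 1))
    (hk : covMap n k = f) :
    Sl (sC c (i, 0)) (evF ![pt n (G × Fin 6), gW (S1 b a) (ul a b l)] f)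
      (Lm (pwF b' (xp 0 (xP i l) k))) := by
  rw [← evF_xp]
  refine eval_cov ?_ (fun m => ?_) hk
  · refine sl_of (B := 1) (fun z => T_full z _) ?_
    rw [pow_zero]
    exact sl_one'
  · refine sl_of (fun z => T_conj (W_apply (S1 b a) (ul a b l)) m z i 0) ?_
    show Sl iG (c⁻¹ * wv (S1 b a) (ul a b l) (i - m) 0 * c) _
    unfold xP
    by_cases h0 : i - m = 0
    · rw [if_pos h0, h0, wv_zero_zero, pow_zero]
      exact sl_one'
    · rw [if_neg h0]
      by_cases hl : i - m = l
      · have hl0 : l ≠ 0 := by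
          rw [← hl]
          exact h0
        rw [if_pos hl, hl, wv_zero_right_l a b l hl0]
        exact sl_sq hc.h22
      · rw [if_neg hl, wv_zero_right a b l h0 hl, pow_one]
        exact hc.h22

/-- The exponents of the term `A`. -/
def xA (i j m : ZMod (n + 1)) : ℕ := if i - m = j then 1 else 0

/-- The term `A` at the label `(i, j)`. -/
theorem val_A {c : Perm (G × Fin 6)} {b' w : G} (hc : CV a b c b' w) (i j : ZMod (n + 1))
    (hk : covMap n k = f) :
    Sl (sC c (i, j)) (evF ![pt n (G × Fin 6), ps (S1 b a) * ps (S1 b a)] f)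
      (Lm (pwF a (xp 0 (xA i j) k))) := by
  rw [← evF_xp]
  refine eval_cov ?_ (fun m => ?_) hk
  · refine sl_of (B := 1) (fun z => T_full z _) ?_
    rw [pow_zero]
    exact sl_one'
  · refine sl_of (fun z => T_conj (SS_apply (S1 b a)) m z i j) ?_
    show Sl iG (c⁻¹ * (if i - m = j then S1 b a * S1 b a else 1) * c) _
    unfold xA
    by_cases h0 : i - m = j
    · rw [if_pos h0, if_pos h0, pow_one]
      exact hc.h11
    · rw [if_neg h0, if_neg h0, pow_zero]
      exact sl_one'

/-- The exponents of the term `R`. -/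
def xR (i l m : ZMod (n + 1)) : ℕ := if i - m = 0 then 0 else if i - m = l then 0 else 1

/-- The term `R` at the label `(i, i)`. -/
theorem val_R {c : Perm (G × Fin 6)} {b' w : G} (hc : CV a b c b' w) (i : ZMod (n + 1))
    (hk : covMap n k = f) :
    Sl (sC c (i, i)) (evF ![gD n (S1 b a), gW (S1 b a) (ul a b l)] f)
      (Lm (pwF a (xp 1 (xR i l) k))) := by
  rw [← evF_xp]
  refine eval_cov ?_ (fun m => ?_) hk
  · rw [pow_one]
    exact sl_of (fun z => D_full _ z _) hc.h11
  · refine sl_of (fun z => D_conj (S1 b a) (W_apply (S1 b a) (ul a b l)) m z i i) ?_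
    show Sl iG (c⁻¹ * (ew (S1 b a) i m * wv (S1 b a) (ul a b l) (i - m) (i - m) *
      (ew (S1 b a) i m)⁻¹) * c) _
    have e1 : ew (S1 b a) i m * 1 * (ew (S1 b a) i m)⁻¹ = 1 := by group
    unfold xR
    by_cases h0 : i - m = 0
    · rw [if_pos h0, h0, wv_zero_zero, e1, pow_zero]
      exact sl_one'
    · rw [if_neg h0]
      by_cases hl : i - m = l
      · have hl0 : l ≠ 0 := by
          rw [← hl]
          exact h0
        rw [if_pos hl, hl, wv_diag_l a b l hl0, e1, pow_zero]
        exact sl_one'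
      · rw [if_neg hl, wv_diag a b l h0 hl, ew_comm, pow_one]
        exact hc.h11

/-- The value of `S1 * S1` at a label. -/
theorem val_SS {c : Perm (G × Fin 6)} {b' w : G} (hc : CV a b c b' w) (i j : ZMod (n + 1)) :
    Sl (sC c (i, j)) (ps (S1 b a) * ps (S1 b a)) (Lm (if i = j then a else 1)) := by
  refine sl_of (fun z => SS_apply (S1 b a) z (i, j)) ?_
  show Sl iG (c⁻¹ * (if i = j then S1 b a * S1 b a else 1) * c) _
  split_ifs
  · exact hc.h11
  · exact sl_one'

theorem pent_ul (h : IsGT lam f) :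
    evF ![gD n (S1 b a), gW (S1 b a) (ul a b l)] f *
      evF ![pt n (G × Fin 6), ps (S1 b a) * ps (S1 b a)] f *
      (evF ![gD n (S1 b a), pu (ul a b l)] f)⁻¹ =
    (evF ![ps (S1 b a) * ps (S1 b a), pu (ul a b l)] f)⁻¹ *
      evF ![pt n (G × Fin 6), gW (S1 b a) (ul a b l)] f :=
  pent_tri (tri (uc a b l)) h

/-- The identity for the marked points `0, 1` and `∞` (`l = 0`) or `ζ ^ l`. -/
theorem first (h : IsGT lam f) (hk : covMap n k = f) :
    evF (mk a (fun m => if m = 0 then b else if -m = l then (a * b)⁻¹ else 1)) k =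
      (pwF b (xp 0 (xP 0 l) k))⁻¹ * evF ![a, b] f *
        (pwF a (xp 1 (xR 0 l) k) * pwF a (xp 0 (xA 0 0) k)) := by
  have hc := cv_one a b
  have kh := val_h (l := l) hc 0 hk
  have kP := val_P (l := l) hc 0 hk
  have kA := val_A hc 0 0 hk
  have kR := val_R (l := l) hc 0 hk
  have kQ : Sl (sC 1 ((0, 0) : Lab n)) (evF ![ps (S1 b a) * ps (S1 b a), pu (ul a b l)] f)
      (Lm (evF ![a, b] f)) := by
    refine eval_two ?_ ?_ f
    · have := val_SS hc (0 : ZMod (n + 1)) 0
      rwa [if_pos rfl] at this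
    · refine sl_of (fun z => U_apply (ul a b l) z (0, 0)) ?_
      show Sl iG (1⁻¹ * ul a b l 0 * 1) _
      rw [ul_zero]
      exact hc.h22
  have hp := pent_ul (n := n) (a := a) (b := b) (l := l) h
  have h1 := (kR.mul kA).mul kh.inv
  have h2 := kQ.inv.mul kP
  rw [hp] at h1
  rw [← Lm_mul, ← Lm_inv, ← Lm_mul] at h1
  rw [← Lm_inv, ← Lm_mul] at h2
  have h3 := Sl.unique h1 h2
  set x := evF (mk a (fun m => if m = 0 then b else if -m = l then (a * b)⁻¹ else 1)) k
  have h4 : x⁻¹ = (pwF a (xp 1 (xR 0 l) k) * pwF a (xp 0 (xA 0 0) k))⁻¹ *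
      ((evF ![a, b] f)⁻¹ * pwF b (xp 0 (xP 0 l) k)) := by
    rw [← h3]
    group
  rw [← inv_inv x, h4]
  group

/-- The values of the marked strand. -/
def w3 (a b : G) (l i j : ZMod (n + 1)) : G :=
  if j = i then a else if j = 0 then (b * a)⁻¹ else
    if j = l then (if l.val < i.val then a⁻¹ * b * a else b) else 1

/-- The term `P` at the label `(j, i)`, `i` not marked. -/
theorem val_P3 {i : ZMod (n + 1)} (h0 : i ≠ 0) (hl : i ≠ l) (j : ZMod (n + 1))
    (hk : covMap n k = f) :
    Sl (sC 1 (j, i)) (evF ![pt n (G × Fin 6), gW (S1 b a) (ul a b l)] f)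
      (Lm (evF (mk 1 (fun m => w3 a b l i (j - m))) k)) := by
  have hc := cv_one a b
  have e1 : ∀ B : Perm (G × Fin 6), (1 : Perm (G × Fin 6))⁻¹ * B * 1 = B := by
    intro B
    group
  refine eval_cov ?_ (fun m => ?_) hk
  · refine sl_of (B := 1) (fun z => T_full z _) ?_
    exact sl_one'
  · refine sl_of (fun z => T_conj (W_apply (S1 b a) (ul a b l)) m z j i) ?_
    show Sl iG (1⁻¹ * wv (S1 b a) (ul a b l) (j - m) i * 1) _
    rw [e1]
    generalize j - m = t
    unfold w3
    by_cases c1 : t = i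
    · subst c1
      rw [if_pos rfl, wv_diag a b l h0 hl]
      exact sl_11 a b
    · rw [if_neg c1]
      by_cases c2 : t = 0
      · subst c2
        rw [if_pos rfl, wv_gen_zero a b l h0 hl]
        exact sl_ba a b
      · rw [if_neg c2]
        by_cases c3 : t = l
        · subst c3
          rw [if_pos rfl]
          by_cases c4 : t.val < i.val
          · rw [if_pos c4, wv_gen_l_lt a b t h0 c2 c4, Lm_mul, Lm_mul, Lm_inv]
            exact ((sl_11 a b).inv.mul (sl_22 a b)).mul (sl_11 a b)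
          · have c5 : i.val < t.val := by
              rcases lt_trichotomy t.val i.val with h | h | h
              · exact absurd h c4
              · exact absurd (ZMod.val_injective _ h) c1
              · exact h
            rw [if_neg c4, wv_gen_l_gt a b t h0 c2 c5]
            exact sl_22 a b
        · rw [if_neg c3, wv_gen_other a b l h0 hl c2 c3 c1, Lm_one]
          exact Sl.one

/-- The values of the term `h` at the label `(j, i)`. -/
noncomputable def hv (a b : G) (l i m : ZMod (n + 1)) : G :=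
  if n + 1 ≤ (i - m).val + m.val then
    (if i - m = 0 then a * b * a⁻¹ else if i - m = l then (a * b)⁻¹ else 1)
  else (if i - m = 0 then b else if i - m = l then (b * a)⁻¹ else 1)

theorem val_h3 (i j : ZMod (n + 1)) (hk : covMap n k = f) :
    Sl (sC 1 (j, i)) (evF ![gD n (S1 b a), pu (ul a b l)] f)
      (Lm (evF (mk a (hv a b l i)) k)) := by
  have e1 : ∀ B : Perm (G × Fin 6), (1 : Perm (G × Fin 6))⁻¹ * B * 1 = B := by
    intro B
    group
  refine eval_cov ?_ (fun m => ?_) hk
  · refine sl_of (fun z => D_full _ z _) ?_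
    rw [e1]
    exact sl_11 a b
  · refine sl_of (fun z => D_conj (S1 b a) (U_apply (ul a b l)) m z j i) ?_
    show Sl iG (1⁻¹ * (ew (S1 b a) i m * ul a b l (i - m) * (ew (S1 b a) i m)⁻¹) * 1) _
    rw [e1]
    unfold hv ew
    by_cases c1 : n + 1 ≤ (i - m).val + m.val
    · rw [if_pos c1, if_pos c1]
      by_cases c2 : i - m = 0
      · rw [if_pos c2, c2, ul_zero, Lm_mul, Lm_mul, Lm_inv]
        exact ((sl_11 a b).mul (sl_22 a b)).mul (sl_11 a b).inv
      · rw [if_neg c2]
        by_cases c3 : i - m = l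
        · have hl0 : l ≠ 0 := by
            rw [← c3]
            exact c2
          rw [if_pos c3, c3, ul_l a b hl0]
          have e : S1 b a * S1 b a * ((S1 b a)⁻¹ * S22 a b * S1 b a) * (S1 b a * S1 b a)⁻¹ =
            S1 b a * S22 a b * (S1 b a)⁻¹ := by group
          rw [e]
          exact sl_ab a b
        · rw [if_neg c3, ul_other a b c2 c3, Lm_one]
          have e : S1 b a * S1 b a * 1 * (S1 b a * S1 b a)⁻¹ = 1 := by group
          rw [e]
          exact Sl.one
    · rw [if_neg c1, if_neg c1]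
      have e2 : ∀ B : Perm (G × Fin 6), 1 * B * (1 : Perm (G × Fin 6))⁻¹ = B := by
        intro B
        group
      rw [e2]
      by_cases c2 : i - m = 0
      · rw [if_pos c2, c2, ul_zero]
        exact sl_22 a b
      · rw [if_neg c2]
        by_cases c3 : i - m = l
        · have hl0 : l ≠ 0 := by
            rw [← c3]
            exact c2
          rw [if_pos c3, c3, ul_l a b hl0]
          exact sl_ba a b
        · rw [if_neg c3, ul_other a b c2 c3, Lm_one]
          exact Sl.one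

/-- The second identity: the marked points are `1`, `ζ ^ (-i)` and `∞` (`l = 0`) or
`ζ ^ (-l)`. -/
theorem second (h : IsGT lam f) (hk : covMap n k = f) {i : ZMod (n + 1)} (h0 : i ≠ 0)
    (hl : i ≠ l) :
    evF (mk 1 (fun m => w3 a b l i (0 - m))) k * (evF (mk 1 (fun m => w3 a b l i (i - m))) k)⁻¹ =
      pwF (b * a)⁻¹ (xp 0 (xP i l) k) * ((pwF (b * a)⁻¹ (xp 0 (xP 0 l) k))⁻¹ *
        evF ![a, (b * a)⁻¹] f * (pwF a (xp 1 (xR 0 l) k) * pwF a (xp 0 (xA 0 0) k))) *
      (pwF a (xp 0 (xA i 0) k))⁻¹ * pwF a (xp 0 (xA 0 i) k) *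
      (pwF a (xp 0 (xA i i) k))⁻¹ * (pwF a (xp 1 (xR i l) k))⁻¹ := by
  have hp := pent_ul (n := n) (a := a) (b := b) (l := l) h
  have hc := cv_one a b
  have hc' := cv_S1 a b
  set gR := evF ![gD n (S1 b a), gW (S1 b a) (ul a b l)] f with hgR
  set gA := evF ![pt n (G × Fin 6), ps (S1 b a) * ps (S1 b a)] f with hgA
  set gh := evF ![gD n (S1 b a), pu (ul a b l)] f with hgh
  set gQ := evF ![ps (S1 b a) * ps (S1 b a), pu (ul a b l)] f with hgQ
  set gP := evF ![pt n (G × Fin 6), gW (S1 b a) (ul a b l)] f with hgP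
  have ePg : gP = gQ * gR * gA * gh⁻¹ := by
    calc gP = gQ * (gQ⁻¹ * gP) := by group
      _ = gQ * (gR * gA * gh⁻¹) := by rw [hp]
      _ = _ := by group
  have eRg : gR = gQ⁻¹ * gP * gh * gA⁻¹ := by
    calc gR = (gR * gA * gh⁻¹) * gh * gA⁻¹ := by group
      _ = _ := by rw [hp]
  -- label (i, 0), slice twisted by S1
  have k2h := val_h (l := l) hc' i hk
  have k2P := val_P (l := l) hc' i hk
  have k2A := val_A hc' i 0 hk
  have k2Q : Sl (sC (S1 b a) ((i, 0) : Lab n)) gQ (Lm 1) := by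
    have h1 : Sl (sC (S1 b a) ((i, 0) : Lab n)) (ps (S1 b a) * ps (S1 b a)) (Lm (1 : G)) := by
      have := val_SS hc' i 0
      rwa [if_neg h0] at this
    have h2 : Sl (sC (S1 b a) ((i, 0) : Lab n)) (pu (ul a b l)) (Lm (b * a)⁻¹) := by
      refine sl_of (fun z => U_apply (ul a b l) z (i, 0)) ?_
      show Sl iG ((S1 b a)⁻¹ * ul a b l 0 * S1 b a) _
      rw [ul_zero]
      exact hc'.h22
    have := eval_two h1 h2 f
    rwa [evF_one_left h.comm] at this
  have k2R := ((k2Q.inv.mul k2P).mul k2h).mul k2A.inv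
  rw [← eRg] at k2R
  rw [← Lm_inv, ← Lm_inv, ← Lm_mul, ← Lm_mul, ← Lm_mul] at k2R
  -- transport to the label (0, i)
  have hD : Commute (ps (n := n) (S1 b a)) (gD n (S1 b a)) := by
    have ht := (tri (uc a b l)).ts
    show ps (S1 b a) * (pt n _ * ps (S1 b a) * pt n _ * ps (S1 b a)) =
      pt n _ * ps (S1 b a) * pt n _ * ps (S1 b a) * ps (S1 b a)
    calc ps (S1 b a) * (pt n _ * ps (S1 b a) * pt n _ * ps (S1 b a))
        = (ps (S1 b a) * pt n _ * ps (S1 b a) * pt n _) * ps (S1 b a) := by group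
      _ = _ := by rw [← ht]
  have hW : Commute (ps (n := n) (S1 b a)) (gW (S1 b a) (ul a b l)) := by
    have ht := (tri (uc a b l)).us
    show ps (S1 b a) * (ps (S1 b a) * pu (ul a b l) * ps (S1 b a) * pu (ul a b l)) =
      ps (S1 b a) * pu (ul a b l) * ps (S1 b a) * pu (ul a b l) * ps (S1 b a)
    calc ps (S1 b a) * (ps (S1 b a) * pu (ul a b l) * ps (S1 b a) * pu (ul a b l))
        = ps (S1 b a) * (pu (ul a b l) * ps (S1 b a) * pu (ul a b l) * ps (S1 b a)) := by
          rw [← ht]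
      _ = _ := by group
  have hSR : Commute (ps (n := n) (S1 b a)) gR := by
    obtain ⟨g, hg⟩ := exists_word ![gD n (S1 b a), gW (S1 b a) (ul a b l)] f
    rw [hgR, hg]
    clear hg
    induction g using FreeGroup.induction_on with
    | C1 =>
      rw [map_one]
      exact Commute.one_right _
    | of i =>
      rw [FreeGroup.lift_apply_of]
      fin_cases i
      · exact hD
      · exact hW
    | inv_of i ih =>
      rw [map_inv]
      exact ih.inv_right
    | mul x y hx hy =>
      rw [map_mul]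
      exact hx.mul_right hy
  have hS : ∀ q : G, ps (S1 b a) (sC (S1 b a) ((i, 0) : Lab n) q) = sC 1 ((0, i) : Lab n) q := by
    intro q
    show (sg (S1 b a) i 0 (S1 b a (iG q)), ((0, i) : Lab n)) = (iG q, (0, i))
    have hv : i.val ≠ 0 := fun hh => h0 ((ZMod.val_eq_zero i).1 hh)
    unfold sg
    rw [ZMod.val_zero, if_neg (by omega), inv_app]
  obtain ⟨r, hr⟩ : ∃ r : G, (1 : G)⁻¹ * pwF (b * a)⁻¹ (xp 0 (xP i l) k) *
      evF (mk a (fun m => if m = 0 then (b * a)⁻¹ else if -m = l then b else 1)) k *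
      (pwF a (xp 0 (xA i 0) k))⁻¹ = r := ⟨_, rfl⟩
  rw [hr] at k2R
  have k3R : Sl (sC 1 ((0, i) : Lab n)) gR (Lm r) := by
    intro q
    rw [← hS, ← Perm.mul_apply, ← hSR.eq, Perm.mul_apply, k2R, hS]
  -- label (0, i)
  have k3A := val_A hc 0 i hk
  have k3h := val_h3 (a := a) (b := b) (l := l) i 0 hk
  have k3P := val_P3 (a := a) (b := b) (l := l) h0 hl 0 hk
  have k3Q : Sl (sC 1 ((0, i) : Lab n)) gQ (Lm 1) := by
    have h1 : Sl (sC 1 ((0, i) : Lab n)) (ps (S1 b a) * ps (S1 b a)) (Lm (1 : G)) := by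
      have := val_SS hc 0 i
      rwa [if_neg (Ne.symm h0)] at this
    have h2 : Sl (sC 1 ((0, i) : Lab n)) (pu (ul a b l)) (Lm 1) := by
      refine sl_of (fun z => U_apply (ul a b l) z (0, i)) ?_
      show Sl iG (1⁻¹ * ul a b l i * 1) _
      rw [ul_other a b h0 hl]
      exact sl_one'
    have := eval_two h1 h2 f
    rwa [evF_one_left h.comm] at this
  have k3 := ((k3Q.mul k3R).mul k3A).mul k3h.inv
  rw [← ePg, ← Lm_inv, ← Lm_mul, ← Lm_mul, ← Lm_mul] at k3
  have e3 := Sl.unique k3P k3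
  -- label (i, i)
  have k4A := val_A hc i i hk
  have k4h := val_h3 (a := a) (b := b) (l := l) i i hk
  have k4P := val_P3 (a := a) (b := b) (l := l) h0 hl i hk
  have k4R := val_R (l := l) hc i hk
  have k4Q : Sl (sC 1 ((i, i) : Lab n)) gQ (Lm 1) := by
    have h1 : Sl (sC 1 ((i, i) : Lab n)) (ps (S1 b a) * ps (S1 b a)) (Lm a) := by
      have := val_SS hc i i
      rwa [if_pos rfl] at this
    have h2 : Sl (sC 1 ((i, i) : Lab n)) (pu (ul a b l)) (Lm 1) := by
      refine sl_of (fun z => U_apply (ul a b l) z (i, i)) ?_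
      show Sl iG (1⁻¹ * ul a b l i * 1) _
      rw [ul_other a b h0 hl]
      exact sl_one'
    have := eval_two h1 h2 f
    rwa [evF_one_right h.comm] at this
  have k4 := ((k4Q.mul k4R).mul k4A).mul k4h.inv
  rw [← ePg, ← Lm_inv, ← Lm_mul, ← Lm_mul, ← Lm_mul] at k4
  have e4 := Sl.unique k4P k4
  -- the first identity for (a, (b * a)⁻¹)
  have e5 := first (a := a) (b := (b * a)⁻¹) (l := l) h hk
  have e6 : (a * (b * a)⁻¹)⁻¹ = b := by group
  rw [e6] at e5
  rw [e5] at hr
  rw [e3, e4, ← hr]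
  group

end main

end MPb66790.CY24
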