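import Pool.Agent.Lib.MP_b66790_nt.CY.Tri24

/-!
# The set with two moving strands attached to the `(n + 1)`-st power map
-/

namespace MPb66790.CY24

open Function Equiv MPb66790

section gen

variable {n : ℕ} {Y : Type}

/-- The half twist of two strands with labels `i, j`. -/
def sg (S : Perm Y) (i j : ZMod (n + 1)) : Perm Y := if i.val ≤ j.val then S else S⁻¹

/-- The first strand around `0`. -/
def pt (n : ℕ) (Y : Type) : Perm (Y × (ZMod (n + 1) × ZMod (n + 1))) :=
  wr (Equiv.prodCongr (Equiv.addRight 1) (Equiv.refl _)) (fun _ => 1)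

/-- The half twist. -/
def ps (S : Perm Y) : Perm (Y × (ZMod (n + 1) × ZMod (n + 1))) :=
  wr (Equiv.prodComm _ _) (fun p => sg S p.1 p.2)

/-- The second strand around `1`. -/
def pu (u : ZMod (n + 1) → Perm Y) : Perm (Y × (ZMod (n + 1) × ZMod (n + 1))) :=
  wr 1 (fun p => u p.2)

theorem val_succ {j : ZMod (n + 1)} (h : j + 1 ≠ 0) : (j + 1).val = j.val + 1 := by
  have h1 : j.val < n + 1 := ZMod.val_lt j
  rcases Nat.lt_or_ge (j.val + 1) (n + 1) with h2 | h2
  · have h3 : ((j.val + 1 : ℕ) : ZMod (n + 1)) = j + 1 := by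
      push_cast
      rw [ZMod.natCast_zmod_val]
    rw [← h3, ZMod.val_natCast, Nat.mod_eq_of_lt h2]
  · exfalso
    apply h
    have h3 : ((j.val + 1 : ℕ) : ZMod (n + 1)) = j + 1 := by
      push_cast
      rw [ZMod.natCast_zmod_val]
    have h4 : j.val + 1 = n + 1 := by omega
    rw [← h3, h4, ZMod.natCast_self]

theorem val_last {j : ZMod (n + 1)} (h : j + 1 = 0) : j.val = n := by
  have h1 : j = -1 := eq_neg_of_add_eq_zero_left h
  rw [h1, ZMod.val_neg_one]

/-- The value of a full turn. -/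
def dv (S : Perm Y) (j : ZMod (n + 1)) : Perm Y := if j + 1 = 0 then S * S else 1

theorem sg_sg (S : Perm Y) (i j : ZMod (n + 1)) : sg S (j + 1) i * sg S i j = dv S j := by
  unfold dv
  split_ifs with h
  · unfold sg
    have h1 : i.val < n + 1 := ZMod.val_lt i
    rw [h, ZMod.val_zero, if_pos (Nat.zero_le _), val_last h, if_pos (by omega)]
  · unfold sg
    rw [val_succ h]
    by_cases h1 : i.val ≤ j.val
    · rw [if_neg (by omega), if_pos h1, inv_mul_cancel]
    · rw [if_pos (by omega), if_neg h1, mul_inv_cancel]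

theorem D_eq (S : Perm Y) : pt n Y * ps S * pt n Y * ps S =
    wr (Equiv.prodCongr (Equiv.addRight 1) (Equiv.addRight 1)) (fun p => dv S p.2) := by
  unfold pt ps
  rw [wr_mul, wr_mul, wr_mul]
  have h : (Equiv.prodCongr (Equiv.addRight 1) (Equiv.refl _) * Equiv.prodComm _ _ *
      Equiv.prodCongr (Equiv.addRight 1) (Equiv.refl _) * Equiv.prodComm _ _ :
      Perm (ZMod (n + 1) × ZMod (n + 1))) =
      Equiv.prodCongr (Equiv.addRight 1) (Equiv.addRight 1) := by
    ext1 ⟨i, j⟩
    rfl
  rw [h]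
  congr 1
  funext ⟨i, j⟩
  rw [← sg_sg S i j]
  rfl

theorem D_eq' (S : Perm Y) : ps S * pt n Y * ps S * pt n Y =
    wr (Equiv.prodCongr (Equiv.addRight 1) (Equiv.addRight 1)) (fun p => dv S p.2) := by
  unfold pt ps
  rw [wr_mul, wr_mul, wr_mul]
  have h : (Equiv.prodComm _ _ * Equiv.prodCongr (Equiv.addRight 1) (Equiv.refl _) *
      Equiv.prodComm _ _ * Equiv.prodCongr (Equiv.addRight 1) (Equiv.refl _) :
      Perm (ZMod (n + 1) × ZMod (n + 1))) =
      Equiv.prodCongr (Equiv.addRight 1) (Equiv.addRight 1) := by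
    ext1 ⟨i, j⟩
    rfl
  rw [h]
  congr 1
  funext ⟨i, j⟩
  rw [← sg_sg S (i + 1) j]
  rfl

/-- The value of the full twist of the two moving strands and the strand `1`. -/
def wv (S : Perm Y) (u : ZMod (n + 1) → Perm Y) (i j : ZMod (n + 1)) : Perm Y :=
  sg S j i * u i * sg S i j * u j

theorem W_eq (S : Perm Y) (u : ZMod (n + 1) → Perm Y) : ps S * pu u * ps S * pu u =
    wr 1 (fun p => wv S u p.1 p.2) := by
  unfold pu ps
  rw [wr_mul, wr_mul, wr_mul]
  have h : (Equiv.prodComm _ _ * 1 * Equiv.prodComm _ _ * 1 :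
      Perm (ZMod (n + 1) × ZMod (n + 1))) = 1 := by
    ext1 ⟨i, j⟩
    rfl
  rw [h]
  congr 1

/-- The conditions on the strand `1`. -/
structure UC (S : Perm Y) (u : ZMod (n + 1) → Perm Y) : Prop where
  c1 : ∀ i, u i * S * u i * S = S * u i * S * u i
  c2 : ∀ i j : ZMod (n + 1), i.val < j.val → Commute (u j) (S⁻¹ * u i * S)

theorem tri {S : Perm Y} {u : ZMod (n + 1) → Perm Y} (h : UC S u) :
    Tri (pt n Y) (ps S) (pu u) := by
  refine ⟨?_, ?_, ?_⟩
  · rw [D_eq, D_eq']
  · rw [W_eq]
    unfold pu ps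
    rw [wr_mul, wr_mul, wr_mul]
    have h0 : (1 * Equiv.prodComm _ _ * 1 * Equiv.prodComm _ _ :
        Perm (ZMod (n + 1) × ZMod (n + 1))) = 1 := by
      ext1 ⟨i, j⟩
      rfl
    rw [h0]
    congr 1
    funext ⟨i, j⟩
    show u j * sg S j i * u i * sg S i j = sg S j i * u i * sg S i j * u j
    rcases lt_trichotomy i.val j.val with hij | hij | hij
    · have e1 : sg S j i = S⁻¹ := if_neg (by omega)
      have e2 : sg S i j = S := if_pos (by omega)
      rw [e1, e2]
      have := (h.c2 i j hij).eq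
      calc u j * S⁻¹ * u i * S = u j * (S⁻¹ * u i * S) := by group
        _ = (S⁻¹ * u i * S) * u j := this
    · have e : i = j := ZMod.val_injective _ hij
      subst e
      have e1 : sg S i i = S := if_pos le_rfl
      rw [e1]
      exact h.c1 i
    · have e1 : sg S j i = S := if_pos (by omega)
      have e2 : sg S i j = S⁻¹ := if_neg (by omega)
      rw [e1, e2]
      have := (h.c2 j i hij).eq
      calc u j * S * u i * S⁻¹ = S * ((S⁻¹ * u j * S) * u i) * S⁻¹ := by group
        _ = S * (u i * (S⁻¹ * u j * S)) * S⁻¹ := by rw [this]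
        _ = S * u i * S⁻¹ * u j := by group
  · unfold pt pu
    rw [wr_mul, wr_mul, one_mul, mul_one]
    congr 1

end gen

section strand

variable {G : Type} [Group G] (a b : G)

/-- The square of the second generator. -/
def S22 : Perm (G × Fin 6) := S2 b a * S2 b a

theorem rel_center : S1 b a * S22 a b * S1 b a * S22 a b = 1 := by
  unfold S22 S1 S2
  rw [wr_mul, wr_mul, wr_mul, wr_mul]
  have h : (pS 0 * (pS 1 * pS 1) * pS 0 * (pS 1 * pS 1) : Perm (Fin 6)) = 1 := by decide
  rw [h]
  ext1 ⟨q, i⟩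
  fin_cases i <;> simp [pS, swap_apply_def, mul_assoc]

theorem rel_center' : S22 a b * S1 b a * S22 a b * S1 b a = 1 := by
  have h := rel_center a b
  have e : S22 a b * S1 b a * S22 a b * S1 b a =
      (S1 b a)⁻¹ * (S1 b a * S22 a b * S1 b a * S22 a b) * S1 b a := by group
  rw [e, h]
  group

/-- The second strand around the strand `1`, in the set with two moving strands: `l = 0`: the
points `1, ∞` are marked; `l ≠ 0`: the points `1, ζ ^ l` are marked. -/
def ul {n : ℕ} (l j : ZMod (n + 1)) : Perm (G × Fin 6) :=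
  if j = 0 then S22 a b else if j = l then (S1 b a)⁻¹ * S22 a b * S1 b a else 1

theorem ul_zero {n : ℕ} (l : ZMod (n + 1)) : ul a b l 0 = S22 a b := if_pos rfl

theorem ul_l {n : ℕ} {l : ZMod (n + 1)} (hl : l ≠ 0) :
    ul a b l l = (S1 b a)⁻¹ * S22 a b * S1 b a := by
  unfold ul
  rw [if_neg hl, if_pos rfl]

theorem ul_other {n : ℕ} {l j : ZMod (n + 1)} (h1 : j ≠ 0) (h2 : j ≠ l) : ul a b l j = 1 := by
  unfold ul
  rw [if_neg h1, if_neg h2]

theorem uc {n : ℕ} (l : ZMod (n + 1)) : UC (S1 b a) (ul a b l) := by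
  constructor
  · intro i
    by_cases h0 : i = 0
    · subst h0
      rw [ul_zero, rel_center, rel_center']
    · by_cases h1 : i = l
      · subst h1
        rw [ul_l a b h0]
        have h := rel_center' a b
        calc (S1 b a)⁻¹ * S22 a b * S1 b a * S1 b a * ((S1 b a)⁻¹ * S22 a b * S1 b a) * S1 b a
            = (S1 b a)⁻¹ * (S22 a b * S1 b a * S22 a b * S1 b a) * S1 b a := by group
          _ = 1 := by rw [h]; group
          _ = S22 a b * S1 b a * S22 a b * S1 b a := h.symm
          _ = _ := by group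
      · rw [ul_other a b h0 h1]
        group
  · intro i j hij
    have hj : j ≠ 0 := by
      rintro rfl
      rw [ZMod.val_zero] at hij
      omega
    by_cases h1 : j = l
    · subst h1
      by_cases h0 : i = 0
      · subst h0
        rw [ul_zero, ul_l a b hj]
      · rw [ul_other a b h0 (by rintro rfl; omega)]
        have e : (S1 b a)⁻¹ * 1 * S1 b a = 1 := by group
        rw [e]
        exact Commute.one_right _
    · rw [ul_other a b hj h1]
      exact Commute.one_left _

/-- Left multiplication. -/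
def Lm (g : G) : Perm G := Equiv.mulLeft g

/-- The slice over the first state. -/
def iG (q : G) : G × Fin 6 := (q, 0)

theorem sl_11 : Sl iG (S1 b a * S1 b a) (Lm a) := by
  intro q
  simp [iG, S1, pS, Lm, swap_apply_def]

theorem sl_22 : Sl iG (S22 a b) (Lm b) := by
  intro q
  simp [iG, S22, S2, pS, Lm, swap_apply_def]

theorem sl_ab : Sl iG (S1 b a * S22 a b * (S1 b a)⁻¹) (Lm (a * b)⁻¹) := by
  have e : S1 b a * S22 a b * (S1 b a)⁻¹ = (S1 b a * S1 b a * S22 a b)⁻¹ := by
    have h := rel_center a b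
    calc S1 b a * S22 a b * (S1 b a)⁻¹
        = (S1 b a * S22 a b * S1 b a * S22 a b) * (S1 b a * S1 b a * S22 a b)⁻¹ := by group
      _ = _ := by rw [h, one_mul]
  rw [e]
  have h := ((sl_11 a b).mul (sl_22 a b)).inv
  refine h.congr ?_
  ext q
  simp [Lm, mul_assoc]

theorem sl_ba : Sl iG ((S1 b a)⁻¹ * S22 a b * S1 b a) (Lm (b * a)⁻¹) := by
  have e : (S1 b a)⁻¹ * S22 a b * S1 b a = (S22 a b * (S1 b a * S1 b a))⁻¹ := by
    have h := rel_center' a b
    calc (S1 b a)⁻¹ * S22 a b * S1 b a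
        = (S22 a b * (S1 b a * S1 b a))⁻¹ * (S22 a b * S1 b a * S22 a b * S1 b a) := by group
      _ = _ := by rw [h, mul_one]
  rw [e]
  have h := ((sl_22 a b).mul (sl_11 a b)).inv
  refine h.congr ?_
  ext q
  simp [Lm, mul_assoc]

end strand

end MPb66790.CY24
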