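import Pool.Agent.Lib.MP_b66790_nt.ModW
import Pool.Agent.Lib.MP_b66790_nt.ModE

/-!
# The pentagon in actions of the braid group with two fixed strands

`Tri t s u`: `t` is the first moving strand around the fixed strand `0`, `s` the half twist of
the two moving strands, `u` the second moving strand around the fixed strand `1`.
-/

namespace MPb66790.CY24

open Function Equiv MPb66790

/-- The relations of the braid group on two strands in the plane minus two points. -/
structure Tri {H : Type} [Group H] (t s u : H) : Prop where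
  ts : t * s * t * s = s * t * s * t
  us : u * s * u * s = s * u * s * u
  tu : t * u = u * t

/-- The relations of the annular braid group on three strands. -/
structure TB {H : Type} [Group H] (T A B : H) : Prop where
  ab : A * B * A = B * A * B
  tb : T * B = B * T
  ta : T * A * T * A = A * T * A * T

section words

variable {H : Type} [Group H]

theorem comm_of_four {a b : H} (h : a * b * a * b = b * a * b * a) :
    Commute a (b * a * b * a) := by
  show a * (b * a * b * a) = b * a * b * a * a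
  calc a * (b * a * b * a) = a * b * a * b * a := by group
    _ = b * a * b * a * a := by rw [h]

theorem comm_of_four' {a b : H} (h : a * b * a * b = b * a * b * a) :
    Commute b (b * a * b * a) := by
  show b * (b * a * b * a) = b * a * b * a * b
  calc b * (b * a * b * a) = b * (a * b * a * b) := by rw [h]
    _ = b * a * b * a * b := by group

end words

section layer2

variable {Z : Type} {t s u : Perm Z}

/-- The strand `1`, moved to the first place, around `0`. -/
def tp (t s u : Perm Z) : Perm Z := s * (s * u * s * u)⁻¹ * s * (s * t * s * t)⁻¹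

/-- The generator `T`. -/
def gT (t s u : Perm Z) : Perm (Z × Fin 3) := wr 1 ![tp t s u, t, t]

/-- The generator `A`. -/
def gA (s u : Perm Z) : Perm (Z × Fin 3) := wr (swap 0 1) ![s * u * s⁻¹, 1, s]

/-- The generator `B`. -/
def gB (s u : Perm Z) : Perm (Z × Fin 3) := wr (swap 1 2) ![s, u, 1]

theorem swap3 : (swap 0 1 * swap 1 2 * swap 0 1 : Perm (Fin 3)) =
    swap 1 2 * swap 0 1 * swap 1 2 := by decide

theorem layer2 (h : Tri t s u) : TB (gT t s u) (gA s u) (gB s u) := by
  have h1 := h.ts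
  have h2 := h.us
  have h3 := h.tu
  have cs1 : Commute s (s * u * s * u) := comm_of_four' h2
  have cu1 : Commute u (s * u * s * u) := comm_of_four h2
  have cs2 : Commute s (s * t * s * t) := comm_of_four' h1
  have ct2 : Commute t (s * t * s * t) := comm_of_four h1
  have ct1 : Commute t u := h3
  refine ⟨?_, ?_, ?_⟩
  · unfold gA gB
    rw [wr_mul, wr_mul, wr_mul, wr_mul, swap3]
    congr 1
    funext i
    fin_cases i
    · show s * u * (s * u * s⁻¹) = u * (s * u * s⁻¹) * s
      calc s * u * (s * u * s⁻¹) = (s * u * s * u) * s⁻¹ := by group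
        _ = (u * s * u * s) * s⁻¹ := by rw [h2]
        _ = u * (s * u * s⁻¹) * s := by group
    · show s * u * s⁻¹ * s * 1 = 1 * s * u
      group
    · show 1 * 1 * s = s * 1 * 1
      group
  · unfold gT gB
    rw [wr_mul, wr_mul, one_mul, mul_one]
    congr 1
    funext i
    fin_cases i
    · show tp t s u * s = s * tp t s u
      unfold tp
      have c : Commute s (s * (s * u * s * u)⁻¹ * s * (s * t * s * t)⁻¹) :=
        (((Commute.refl s).mul_right cs1.inv_right).mul_right (Commute.refl s)).mul_right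
          cs2.inv_right
      exact c.eq.symm
    · show t * u = u * t
      exact h3
    · show t * 1 = 1 * t
      group
  · unfold gT gA
    rw [wr_mul, wr_mul, wr_mul, wr_mul, wr_mul, wr_mul]
    simp only [one_mul, mul_one]
    congr 1
    funext i
    have cW : Commute t (u⁻¹ * (s * t * s * t)⁻¹) := ct1.inv_right.mul_right ct2.inv_right
    have e1 : (s * u * s⁻¹) * tp t s u = u⁻¹ * (s * t * s * t)⁻¹ := by
      have e : (s * u * s⁻¹) * tp t s u =
          s * u * ((s * u * s * u)⁻¹ * s) * (s * t * s * t)⁻¹ := by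
        unfold tp
        group
      rw [e, ← (cs1.inv_right).eq]
      calc s * u * (s * (s * u * s * u)⁻¹) * (s * t * s * t)⁻¹
          = u⁻¹ * (u * s * u * s) * (s * u * s * u)⁻¹ * (s * t * s * t)⁻¹ := by group
        _ = u⁻¹ * (s * u * s * u) * (s * u * s * u)⁻¹ * (s * t * s * t)⁻¹ := by rw [h2]
        _ = u⁻¹ * (s * t * s * t)⁻¹ := by group
    have cu3 : Commute u (s * u * s) := by
      show u * (s * u * s) = s * u * s * u
      rw [← h2]
      group
    have cq : Commute (s * u * s⁻¹) (t * (u⁻¹ * (s * t * s * t)⁻¹)) := by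
      have e2 : t * (u⁻¹ * (s * t * s * t)⁻¹) = s * ((s * u * s)⁻¹ * t⁻¹) * s⁻¹ := by
        rw [cW.eq, ← h1]
        group
      rw [e2]
      have c : Commute u ((s * u * s)⁻¹ * t⁻¹) := cu3.inv_right.mul_right ct1.symm.inv_right
      have := c.eq
      show s * u * s⁻¹ * (s * ((s * u * s)⁻¹ * t⁻¹) * s⁻¹) =
        s * ((s * u * s)⁻¹ * t⁻¹) * s⁻¹ * (s * u * s⁻¹)
      calc s * u * s⁻¹ * (s * ((s * u * s)⁻¹ * t⁻¹) * s⁻¹)
          = s * (u * ((s * u * s)⁻¹ * t⁻¹)) * s⁻¹ := by group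
        _ = s * (((s * u * s)⁻¹ * t⁻¹) * u) * s⁻¹ := by rw [this]
        _ = _ := by group
    fin_cases i
    · show tp t s u * 1 * t * (s * u * s⁻¹) = 1 * t * (s * u * s⁻¹) * tp t s u
      have e2 : tp t s u = (s * u * s⁻¹)⁻¹ * (u⁻¹ * (s * t * s * t)⁻¹) := by
        rw [← e1]
        group
      calc tp t s u * 1 * t * (s * u * s⁻¹)
          = (s * u * s⁻¹)⁻¹ * ((u⁻¹ * (s * t * s * t)⁻¹) * t) * (s * u * s⁻¹) := by
            rw [e2]
            group
        _ = (s * u * s⁻¹)⁻¹ * (t * (u⁻¹ * (s * t * s * t)⁻¹) * (s * u * s⁻¹)) := by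
            rw [← cW.eq]
            group
        _ = t * (u⁻¹ * (s * t * s * t)⁻¹) := by
            rw [← cq.eq]
            group
        _ = _ := by
            rw [← e1]
            group
    · show t * (s * u * s⁻¹) * tp t s u * 1 = s * u * s⁻¹ * tp t s u * 1 * t
      rw [mul_one, mul_one, e1, mul_assoc, e1]
      exact cW.eq
    · show t * s * t * s = s * t * s * t
      exact h1

end layer2

section layer1

variable {Z : Type} {T A B : Perm Z}

/-- The three generators of the braid group on four strands. -/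
def sB (T A B : Perm Z) : Fin 3 → Perm (Z × Fin 4)
  | 0 => wr (swap 0 1) ![1, T, A, A]
  | 1 => wr (swap 1 2) ![A, 1, A * T * A⁻¹, B]
  | 2 => wr (swap 2 3) ![B, B, 1, B * (A * T * A⁻¹) * B⁻¹]

theorem layer1 (h : TB T A B) : IsBraid (sB T A B) := by
  have ab := h.ab
  have tb := h.tb
  have ta := h.ta
  have cA : Commute A (T * (A * T * A⁻¹)) := by
    show A * (T * (A * T * A⁻¹)) = T * (A * T * A⁻¹) * A
    calc A * (T * (A * T * A⁻¹)) = (A * T * A * T) * A⁻¹ := by group
      _ = (T * A * T * A) * A⁻¹ := by rw [ta]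
      _ = _ := by group
  have eB : (A * B) * A * (A * B)⁻¹ = B := by
    calc (A * B) * A * (A * B)⁻¹ = (A * B * A) * (A * B)⁻¹ := by group
      _ = (B * A * B) * (A * B)⁻¹ := by rw [ab]
      _ = B := by group
  have eT : (A * B) * T * (A * B)⁻¹ = A * T * A⁻¹ := by
    calc (A * B) * T * (A * B)⁻¹ = A * (B * T) * (A * B)⁻¹ := by group
      _ = A * (T * B) * (A * B)⁻¹ := by rw [tb]
      _ = _ := by group
  have cB : Commute B ((A * T * A⁻¹) * (B * (A * T * A⁻¹) * B⁻¹)) := by
    have e : (A * T * A⁻¹) * (B * (A * T * A⁻¹) * B⁻¹) =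
        (A * B) * (T * (A * T * A⁻¹)) * (A * B)⁻¹ := by
      calc (A * T * A⁻¹) * (B * (A * T * A⁻¹) * B⁻¹)
          = ((A * B) * T * (A * B)⁻¹) * (((A * B) * A * (A * B)⁻¹) *
            ((A * B) * T * (A * B)⁻¹) * ((A * B) * A * (A * B)⁻¹)⁻¹) := by rw [eT, eB]
        _ = _ := by group
    rw [e]
    conv_lhs => rw [← eB]
    show (A * B) * A * (A * B)⁻¹ * ((A * B) * (T * (A * T * A⁻¹)) * (A * B)⁻¹) =
      (A * B) * (T * (A * T * A⁻¹)) * (A * B)⁻¹ * ((A * B) * A * (A * B)⁻¹)
    have c := cA.eq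
    calc (A * B) * A * (A * B)⁻¹ * ((A * B) * (T * (A * T * A⁻¹)) * (A * B)⁻¹)
        = (A * B) * (A * (T * (A * T * A⁻¹))) * (A * B)⁻¹ := by group
      _ = (A * B) * ((T * (A * T * A⁻¹)) * A) * (A * B)⁻¹ := by rw [c]
      _ = _ := by group
  have e5 : B * A⁻¹ * B⁻¹ = A⁻¹ * B⁻¹ * A := by
    calc B * A⁻¹ * B⁻¹ = A⁻¹ * B⁻¹ * (B * A * B) * A⁻¹ * B⁻¹ := by group
      _ = A⁻¹ * B⁻¹ * (A * B * A) * A⁻¹ * B⁻¹ := by rw [ab]
      _ = _ := by group
  have cT3 : Commute A (B * (A * T * A⁻¹) * B⁻¹) := by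
    show A * (B * (A * T * A⁻¹) * B⁻¹) = B * (A * T * A⁻¹) * B⁻¹ * A
    calc A * (B * (A * T * A⁻¹) * B⁻¹) = (A * B * A) * T * (A⁻¹ * B⁻¹) := by group
      _ = (B * A * B) * T * (A⁻¹ * B⁻¹) := by rw [ab]
      _ = B * A * (T * B) * (A⁻¹ * B⁻¹) := by rw [tb]; group
      _ = B * A * T * (B * A⁻¹ * B⁻¹) := by group
      _ = B * A * T * (A⁻¹ * B⁻¹ * A) := by rw [e5]
      _ = B * (A * T * A⁻¹) * B⁻¹ * A := by group
  refine ⟨?_, ?_, ?_⟩
  · have h : (swap 0 1 * swap 1 2 * swap 0 1 : Perm (Fin 4)) = swap 1 2 * swap 0 1 * swap 1 2 := by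
      decide
    simp only [sB]
    rw [wr_mul, wr_mul, wr_mul, wr_mul, h]
    congr 1
    funext i
    fin_cases i
    · show A * 1 * 1 = 1 * 1 * A
      group
    · show 1 * A * T = A * T * A⁻¹ * A * 1
      group
    · show T * (A * T * A⁻¹) * A = A * T * (A * T * A⁻¹)
      rw [← cA.eq]
      group
    · exact ab
  · have h : (swap 1 2 * swap 2 3 * swap 1 2 : Perm (Fin 4)) = swap 2 3 * swap 1 2 * swap 2 3 := by
      decide
    simp only [sB]
    rw [wr_mul, wr_mul, wr_mul, wr_mul, h]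
    congr 1
    funext i
    fin_cases i
    · exact ab
    · show B * 1 * 1 = 1 * 1 * B
      group
    · show 1 * B * (A * T * A⁻¹) = B * (A * T * A⁻¹) * B⁻¹ * B * 1
      group
    · show A * T * A⁻¹ * (B * (A * T * A⁻¹) * B⁻¹) * B = B * (A * T * A⁻¹) * (B * (A * T * A⁻¹) * B⁻¹)
      rw [← cB.eq]
      group
  · have h : (swap 0 1 * swap 2 3 : Perm (Fin 4)) = swap 2 3 * swap 0 1 := by
      decide
    simp only [sB]
    rw [wr_mul, wr_mul, h]
    congr 1
    funext i
    fin_cases i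
    · show 1 * B = B * 1
      group
    · show T * B = B * T
      exact tb
    · show A * 1 = 1 * A
      group
    · show A * (B * (A * T * A⁻¹) * B⁻¹) = B * (A * T * A⁻¹) * B⁻¹ * A
      exact cT3.eq

end layer1

theorem app_inv {Z : Type} (g : Perm Z) (z : Z) : g (g⁻¹ z) = z := Equiv.apply_symm_apply g z

theorem inv_app {Z : Type} (g : Perm Z) (z : Z) : g⁻¹ (g z) = z := Equiv.symm_apply_apply g z

section slice

variable {V Z : Type} (ι : Z → V)

/-- `g` preserves the slice and acts on it as `g0`. -/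
def Sl (g : Perm V) (g0 : Perm Z) : Prop := ∀ z, g (ι z) = ι (g0 z)

variable {ι}

theorem Sl.mul {g h : Perm V} {g0 h0 : Perm Z} (a : Sl ι g g0) (b : Sl ι h h0) :
    Sl ι (g * h) (g0 * h0) := by
  intro z
  rw [Perm.mul_apply, b, a, Perm.mul_apply]

theorem Sl.one : Sl ι (1 : Perm V) (1 : Perm Z) := fun _ => rfl

theorem Sl.inv {g : Perm V} {g0 : Perm Z} (a : Sl ι g g0) : Sl ι g⁻¹ g0⁻¹ := by
  intro z
  rw [Perm.inv_eq_iff_eq, a]
  congr 1
  exact (app_inv g0 z).symm

theorem Sl.pow {g : Perm V} {g0 : Perm Z} (a : Sl ι g g0) (n : ℕ) : Sl ι (g ^ n) (g0 ^ n) := by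
  induction n with
  | zero => simpa using Sl.one
  | succ n ih =>
    rw [pow_succ, pow_succ]
    exact ih.mul a

theorem Sl.congr {g : Perm V} {g0 g1 : Perm Z} (a : Sl ι g g0) (e : g0 = g1) : Sl ι g g1 := by
  rw [← e]
  exact a

theorem Sl.lift {n : ℕ} {U : Fin n → Perm V} {u : Fin n → Perm Z} (h : ∀ i, Sl ι (U i) (u i))
    (w : FreeGroup (Fin n)) : Sl ι (FreeGroup.lift U w) (FreeGroup.lift u w) := by
  induction w using FreeGroup.induction_on with
  | C1 => simpa using Sl.one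
  | of i => simpa using h i
  | inv_of i ih =>
    rw [map_inv, map_inv]
    exact ih.inv
  | mul a b ha hb =>
    rw [map_mul, map_mul]
    exact ha.mul hb

theorem Sl.ev [Finite V] [Finite Z] {n : ℕ} {U : Fin n → Perm V} {u : Fin n → Perm Z}
    (h : ∀ i, Sl ι (U i) (u i)) (x : FHat n) : Sl ι (evF U x) (evF u x) := by
  obtain ⟨w, h1, h2⟩ := exists_rep₂ (FreeGroup.lift U) (FreeGroup.lift u) x
  have h3 : evF U x = FreeGroup.lift U w := h1
  have h4 : evF u x = FreeGroup.lift u w := h2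
  rw [h3, h4]
  exact Sl.lift h w

theorem Sl.ev2 [Finite V] [Finite Z] {a b : Perm V} {c d : Perm Z}
    (h1 : Sl ι a c) (h2 : Sl ι b d) (x : FHat 2) : Sl ι (evF ![a, b] x) (evF ![c, d] x) := by
  refine Sl.ev (fun i => ?_) x
  fin_cases i
  · exact h1
  · exact h2

end slice

section pent

variable {Z : Type} {t s u : Perm Z}

/-- The base slice. -/
def bs (z : Z) : (Z × Fin 3) × Fin 4 := ((z, 2), 0)

theorem evBF_ev2 {Q : Type} [Group Q] [Finite Q] {t : Fin 3 → Q} (h : IsBraid t)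
    (a b : Hat Braid4) (x : FHat 2) : evBF h (ev ![a, b] x) = evF ![evBF h a, evBF h b] x := by
  rw [evBF_ev]
  congr 2
  funext i
  fin_cases i <;> rfl

/-- The five cycle relation in a set with two moving strands. -/
theorem pent_tri [Finite Z] (h : Tri t s u) {lam : ZHat} {f : FHat 2} (hf : IsGT lam f) :
    evF ![t * s * t * s, s * u * s * u] f * evF ![t, s * s] f *
      (evF ![t * s * t * s, u] f)⁻¹ =
    (evF ![s * s, u] f)⁻¹ * evF ![t, s * u * s * u] f := by
  have hB := layer1 (layer2 h)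
  set sb := sB (gT t s u) (gA s u) (gB s u) with hsb
  have s0 : ∀ z : Z × Fin 3, sb 0 (z, 0) = (z, 1) := fun _ => rfl
  have s01 : ∀ z : Z × Fin 3, sb 0 (z, 1) = (gT t s u z, 0) := fun _ => rfl
  have s02 : ∀ z : Z × Fin 3, sb 0 (z, 2) = (gA s u z, 2) := fun _ => rfl
  have s10 : ∀ z : Z × Fin 3, sb 1 (z, 0) = (gA s u z, 0) := fun _ => rfl
  have s11 : ∀ z : Z × Fin 3, sb 1 (z, 1) = (z, 2) := fun _ => rfl
  have s12 : ∀ z : Z × Fin 3, sb 1 (z, 2) =
      ((gA s u * gT t s u * (gA s u)⁻¹) z, 1) := fun _ => rfl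
  have s20 : ∀ z : Z × Fin 3, sb 2 (z, 0) = (gB s u z, 0) := fun _ => rfl
  have T2 : ∀ z : Z, gT t s u (z, 2) = (t z, 2) := fun _ => rfl
  have A0 : ∀ z : Z, gA s u (z, 0) = ((s * u * s⁻¹) z, 1) := fun _ => rfl
  have A1 : ∀ z : Z, gA s u (z, 1) = (z, 0) := fun _ => rfl
  have A2 : ∀ z : Z, gA s u (z, 2) = (s z, 2) := fun _ => rfl
  have B0 : ∀ z : Z, gB s u (z, 0) = (s z, 0) := fun _ => rfl
  have B1 : ∀ z : Z, gB s u (z, 1) = (u z, 2) := fun _ => rfl
  have B2 : ∀ z : Z, gB s u (z, 2) = (z, 1) := fun _ => rfl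
  have k12 : Sl bs (sb 0 ^ 2) t := by
    intro z
    rw [pow_two, Perm.mul_apply]
    show sb 0 (sb 0 ((z, 2), 0)) = ((t z, 2), 0)
    rw [s0, s01, T2]
  have k23 : Sl bs (sb 1 ^ 2) (s * s) := by
    intro z
    rw [pow_two, Perm.mul_apply]
    show sb 1 (sb 1 ((z, 2), 0)) = (((s * s) z, 2), 0)
    rw [s10, s10, A2, A2]
    rfl
  have k34 : Sl bs (sb 2 ^ 2) u := by
    intro z
    rw [pow_two, Perm.mul_apply]
    show sb 2 (sb 2 ((z, 2), 0)) = ((u z, 2), 0)
    rw [s20, s20, B2, B1]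
  have k45 : Sl bs ((sb 0 * sb 1) ^ 3) (t * s * t * s) := by
    intro z
    show sb 0 (sb 1 (sb 0 (sb 1 (sb 0 (sb 1 ((z, 2), 0)))))) = (((t * s * t * s) z, 2), 0)
    rw [s10, s0, s11, s02, s12, s01, A2, A2]
    have e : (gA s u * gT t s u * (gA s u)⁻¹) (s (s z), 2) = ((s * t * s) z, 2) := by
      rw [← A2, Perm.mul_apply, Perm.mul_apply, inv_app, T2, A2]
      rfl
    rw [e, T2]
    rfl
  have k51 : Sl bs ((sb 1 * sb 2) ^ 3) (s * u * s * u) := by
    intro z
    show sb 1 (sb 2 (sb 1 (sb 2 (sb 1 (sb 2 ((z, 2), 0)))))) = (((s * u * s * u) z, 2), 0)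
    rw [s20, s10, s20, s10, s20, s10, B2, A1, B0, A0, B1, A2]
    have e : (s * u * s⁻¹) (s z) = (s * u) z := by
      rw [Perm.mul_apply, inv_app]
    rw [e]
    rfl
  have hp := congrArg (evBF hB) (pentagon hf)
  unfold fR fA fh fQ fP cB dB at hp
  simp only [map_mul, map_inv, evBF_ev2, map_pow, evBF_s] at hp
  have kR := Sl.ev2 k45 k51 f
  have kA := Sl.ev2 k12 k23 f
  have kh := Sl.ev2 k45 k34 f
  have kQ := Sl.ev2 k23 k34 f
  have kP := Sl.ev2 k12 k51 f
  have kl := (kR.mul kA).mul kh.inv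
  have kr := kQ.inv.mul kP
  ext1 z
  have e1 := kl z
  have e2 := kr z
  rw [hp, e2] at e1
  have e3 : ∀ a b : Z, bs a = bs b → a = b := fun a b hab => by
    have := congrArg (fun v : (Z × Fin 3) × Fin 4 => v.1.1) hab
    exact this
  exact (e3 _ _ e1).symm

end pent

end MPb66790.CY24
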